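import Pool.Agent.Helper53.Engel.Periodic

/-!
# Task J of MP_ac6cd3_gt: periodic orbits of the base flow
-/

set_option autoImplicit false

open Topology Real Filter Set

noncomputable section

namespace Pool.Agent.Helper48.EngelJ

open Pool.Agent.Helper53.Engel

/-! ### chains of slots -/

lemma slot_mono {F F' : ℝ → ℝ} {a b : ℝ} (hd : ∀ t ∈ Icc a b, HasDerivAt F (F' t) t)
    (hn : ∀ t ∈ Ioo a b, 0 ≤ F' t) : MonotoneOn F (Icc a b) := by
  apply monotoneOn_of_deriv_nonneg (convex_Icc a b)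
  · exact fun t ht => (hd t ht).continuousAt.continuousWithinAt
  · intro t ht
    rw [interior_Icc] at ht
    exact (hd t (Ioo_subset_Icc_self ht)).differentiableAt.differentiableWithinAt
  · intro t ht
    rw [interior_Icc] at ht
    rw [(hd t (Ioo_subset_Icc_self ht)).deriv]
    exact hn t ht

lemma chain_mono {F F' : ℝ → ℝ} {N : ℕ}
    (hd : ∀ j : ℕ, j < N → ∀ t ∈ Icc (j + 1 / 2 : ℝ) (j + 1), HasDerivAt F (F' t) t)
    (hn : ∀ j : ℕ, j < N → ∀ t ∈ Ioo (j + 1 / 2 : ℝ) (j + 1), 0 ≤ F' t)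
    (hc : ∀ j : ℕ, F (j + 3 / 2) = F (j + 1)) (hp : F (1 / 2 + N) = F (1 / 2)) :
    ∀ j : ℕ, j < N → ∀ t ∈ Icc (j + 1 / 2 : ℝ) (j + 1), F t = F (1 / 2) := by
  have hm : ∀ j : ℕ, j < N → MonotoneOn F (Icc (j + 1 / 2 : ℝ) (j + 1)) := fun j hj =>
    slot_mono (hd j hj) (hn j hj)
  have hs : ∀ j : ℕ, F ((j + 1 : ℕ) + 1 / 2) = F (j + 1) := by
    intro j
    rw [← hc j]
    congr 1
    push_cast
    ring
  have hstep : ∀ j : ℕ, j < N → F (j + 1 / 2) ≤ F ((j + 1 : ℕ) + 1 / 2) := by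
    intro j hj
    rw [hs j]
    exact hm j hj ⟨le_refl _, by linarith⟩ ⟨by linarith, le_refl _⟩ (by linarith)
  have hup : ∀ j : ℕ, j ≤ N → F (1 / 2) ≤ F (j + 1 / 2) := by
    intro j
    induction j with
    | zero => intro _; simp
    | succ j ih =>
      intro hj
      exact (ih (by omega)).trans (hstep j (by omega))
  have hdown : ∀ i : ℕ, i ≤ N → F ((N - i : ℕ) + 1 / 2) ≤ F (1 / 2) := by
    intro i
    induction i with
    | zero =>
      intro _
      rw [← hp]
      apply le_of_eq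
      congr 1
      simp [add_comm]
    | succ i ih =>
      intro hi
      refine le_trans ?_ (ih (by omega))
      have h1 := hstep (N - (i + 1)) (by omega)
      have h2 : N - (i + 1) + 1 = N - i := by omega
      rwa [h2] at h1
  have heq : ∀ j : ℕ, j ≤ N → F (j + 1 / 2) = F (1 / 2) := by
    intro j hj
    apply le_antisymm _ (hup j hj)
    have h1 := hdown (N - j) (by omega)
    have h2 : N - (N - j) = j := by omega
    rwa [h2] at h1
  intro j hj t ht
  apply le_antisymm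
  · rw [← heq (j + 1) (by omega), hs j]
    exact hm j hj ht ⟨by linarith, le_refl _⟩ ht.2
  · rw [← heq j hj.le]
    exact hm j hj ⟨le_refl _, by linarith⟩ ht ht.1

lemma deriv_zero_of_const {F F' : ℝ → ℝ} {a b k : ℝ} (hd : ∀ t ∈ Icc a b, HasDerivAt F (F' t) t)
    (h : ∀ t ∈ Icc a b, F t = k) : ∀ t ∈ Ioo a b, F' t = 0 := by
  intro t ht
  have h1 : F =ᶠ[𝓝 t] fun _ => k := by
    filter_upwards [Ioo_mem_nhds ht.1 ht.2] with s hs
    exact h s (Ioo_subset_Icc_self hs)
  exact (hd t (Ioo_subset_Icc_self ht)).unique ((hasDerivAt_const t k).congr_of_eventuallyEq h1)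

lemma chain_zero {F F' : ℝ → ℝ} {N : ℕ}
    (hd : ∀ j : ℕ, j < N → ∀ t ∈ Icc (j + 1 / 2 : ℝ) (j + 1), HasDerivAt F (F' t) t)
    (hn : ∀ j : ℕ, j < N → ∀ t ∈ Ioo (j + 1 / 2 : ℝ) (j + 1), 0 ≤ F' t)
    (hc : ∀ j : ℕ, F (j + 3 / 2) = F (j + 1)) (hp : F (1 / 2 + N) = F (1 / 2)) :
    ∀ j : ℕ, j < N → ∀ t ∈ Ioo (j + 1 / 2 : ℝ) (j + 1), F' t = 0 := by
  intro j hj
  exact deriv_zero_of_const (hd j hj) (chain_mono hd hn hc hp j hj)

lemma chain_const {F F' : ℝ → ℝ} {N : ℕ}
    (hd : ∀ j : ℕ, j < N → ∀ t ∈ Icc (j + 1 / 2 : ℝ) (j + 1), HasDerivAt F (F' t) t)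
    (hn : ∀ j : ℕ, j < N → ∀ t ∈ Ioo (j + 1 / 2 : ℝ) (j + 1), F' t = 0)
    (hc : ∀ j : ℕ, F (j + 3 / 2) = F (j + 1)) :
    ∀ j : ℕ, j < N → ∀ t ∈ Icc (j + 1 / 2 : ℝ) (j + 1), F t = F (1 / 2) := by
  have hslot : ∀ j : ℕ, j < N → ∀ t ∈ Icc (j + 1 / 2 : ℝ) (j + 1), F t = F (j + 1 / 2) := by
    intro j hj t ht
    have h1 := slot_mono (hd j hj) (fun t ht => (hn j hj t ht).ge)
    have h2 : MonotoneOn (fun t => -F t) (Icc (j + 1 / 2 : ℝ) (j + 1)) :=
      slot_mono (F' := fun t => -F' t) (fun t ht => (hd j hj t ht).neg)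
        (fun t ht => by simp [hn j hj t ht])
    have ha : (j + 1 / 2 : ℝ) ∈ Icc (j + 1 / 2 : ℝ) (j + 1) := ⟨le_refl _, by linarith⟩
    apply le_antisymm
    · have := h2 ha ht ht.1
      simp only at this
      linarith
    · exact h1 ha ht ht.1
  have heq : ∀ j : ℕ, j ≤ N → F (j + 1 / 2) = F (1 / 2) := by
    intro j
    induction j with
    | zero => intro _; simp
    | succ j ih =>
      intro hj
      rw [← ih (by omega), ← hslot j (by omega) (j + 1) ⟨by linarith, le_refl _⟩, ← hc j]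
      congr 1
      push_cast
      ring
  intro j hj t ht
  rw [hslot j hj t ht, heq j hj.le]

/-! ### profile facts on the base slots -/

lemma tb_base {t : ℝ} {j : ℕ} (h : t ∈ Icc (j + 1 / 2 : ℝ) (j + 1)) : tb t = t - j := by
  have := tb_eq (t := t) (n := (j : ℤ)) (by
    push_cast
    rw [abs_lt]
    constructor <;> linarith [h.1, h.2])
  simpa using this

/-- the three profiles: either `chi2` vanishes or both `mu` and `dmu` do -/
lemma chi2_or (t : ℝ) : chi2 t = 0 ∨ (mu t = 0 ∧ dmu t = 0) := by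
  by_cases h : 5 / 8 ≤ tb t ∧ tb t ≤ 7 / 8
  · right
    unfold mu dmu
    rw [stp_one (by norm_num) h.1, stp_zero (by norm_num) h.2, stp_deriv_right (by norm_num) h.1,
      stp_deriv_left (by norm_num) h.2]
    norm_num
  · left
    unfold chi2
    rcases not_and_or.1 h with h1 | h1
    · exact stp_deriv_left (by norm_num) (by linarith [not_le.1 h1])
    · exact stp_deriv_right (by norm_num) (by linarith [not_le.1 h1])

lemma chi2_nonneg (t : ℝ) : 0 ≤ chi2 t := stp_deriv_nonneg (by norm_num) _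

/-- the primitive of `chi2` on the slot `j` -/
def SS (j : ℕ) (t : ℝ) : ℝ := stp (5 / 8) (7 / 8) (t - j)

lemma SS_hasDerivAt {t : ℝ} {j : ℕ} (h : t ∈ Icc (j + 1 / 2 : ℝ) (j + 1)) :
    HasDerivAt (SS j) (chi2 t) t := by
  unfold SS chi2
  rw [tb_base h]
  exact (stp_hasDerivAt (5 / 8) (7 / 8) (t - j)).comp_sub_const t j

lemma SS_left (j : ℕ) : SS j (j + 1 / 2) = 0 := by
  unfold SS
  exact stp_zero (by norm_num) (by linarith)

lemma SS_right (j : ℕ) : SS j (j + 1) = 1 := by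
  unfold SS
  exact stp_one (by norm_num) (by linarith)

/-- increment over a slot -/
lemma slot_incr {F : ℝ → ℝ} {j : ℕ} {c : ℝ}
    (hd : ∀ t ∈ Icc (j + 1 / 2 : ℝ) (j + 1), HasDerivAt F (c * chi2 t) t) :
    F (j + 1) = F (j + 1 / 2) + c := by
  have hd' : ∀ t ∈ Icc (j + 1 / 2 : ℝ) (j + 1),
      HasDerivAt (fun t => F t - c * SS j t) (c * chi2 t - c * chi2 t) t := fun t ht =>
    (hd t ht).sub ((SS_hasDerivAt ht).const_mul c)
  have h1 := slot_mono hd' (fun t _ => by simp)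
  have h2 : MonotoneOn (fun t => -(F t - c * SS j t)) (Icc (j + 1 / 2 : ℝ) (j + 1)) :=
    slot_mono (F' := fun t => -(c * chi2 t - c * chi2 t)) (fun t ht => (hd' t ht).neg)
      (fun t _ => by simp)
  have ha : (j + 1 / 2 : ℝ) ∈ Icc (j + 1 / 2 : ℝ) (j + 1) := ⟨le_refl _, by linarith⟩
  have hb : (j + 1 : ℝ) ∈ Icc (j + 1 / 2 : ℝ) (j + 1) := ⟨by linarith, le_refl _⟩
  have h3 := h1 ha hb (by linarith)
  have h4 := h2 ha hb (by linarith)
  simp only [SS_left, SS_right] at h3 h4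
  linarith

lemma exists_chi2_ne : ∃ t ∈ Ioo ((0 : ℕ) + 1 / 2 : ℝ) ((0 : ℕ) + 1), chi2 t ≠ 0 := by
  by_contra hcon
  push Not at hcon
  have h1 : ∀ t ∈ Icc ((0 : ℕ) + 1 / 2 : ℝ) ((0 : ℕ) + 1), HasDerivAt (SS 0) (1 * chi2 t) t := by
    intro t ht
    simpa using SS_hasDerivAt ht
  have h2 : ∀ t ∈ Icc ((0 : ℕ) + 1 / 2 : ℝ) ((0 : ℕ) + 1), HasDerivAt (SS 0) (0 * chi2 t) t := by
    intro t ht
    have h3 := SS_hasDerivAt ht
    have h4 : chi2 t = 0 := by
      by_cases h5 : t ∈ Ioo ((0 : ℕ) + 1 / 2 : ℝ) ((0 : ℕ) + 1)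
      · exact hcon t h5
      · have h6 : t = 1 / 2 ∨ t = 1 := by
          by_contra h7
          push Not at h7
          apply h5
          refine ⟨lt_of_le_of_ne ht.1 ?_, lt_of_le_of_ne ht.2 ?_⟩
          · intro h8
            apply h7.1
            rw [← h8]
            norm_num
          · intro h8
            apply h7.2
            rw [h8]
            norm_num
        rcases h6 with rfl | rfl
        · exact chi2_slot (n := 0) ⟨by norm_num, by norm_num⟩
        · exact chi2_slot (n := 1) ⟨by norm_num, by norm_num⟩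
    rw [h4] at h3
    simpa using h3
  have h5 := slot_incr h1
  have h6 := slot_incr h2
  rw [h5] at h6
  norm_num at h6

lemma chi2_left (j : ℕ) : chi2 (j + 1 / 2) = 0 := by
  have := chi2_slot (t := (j + 1 / 2 : ℝ)) (n := (j : ℤ)) ⟨by push_cast; linarith, by push_cast; linarith⟩
  exact this

lemma chi2_right (j : ℕ) : chi2 (j + 1) = 0 := by
  have := chi2_slot (t := (j + 1 : ℝ)) (n := ((j : ℤ) + 1)) ⟨by push_cast; linarith, by push_cast; linarith⟩
  exact this

lemma mu_left (j : ℕ) : mu (j + 1 / 2) = 1 := by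
  have := mu_slot (t := (j + 1 / 2 : ℝ)) (n := (j : ℤ)) ⟨by push_cast; linarith, by push_cast; linarith⟩
  exact this

lemma mu_right (j : ℕ) : mu (j + 1) = 1 := by
  have := mu_slot (t := (j + 1 : ℝ)) (n := ((j : ℤ) + 1)) ⟨by push_cast; linarith, by push_cast; linarith⟩
  exact this

lemma mu_next (j : ℕ) : mu (j + 3 / 2) = 1 := by
  have := mu_left (j + 1)
  rw [← this]
  congr 1
  push_cast
  ring

/-- a property that holds at interior points where `chi2` is not zero -/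
lemma chi2_mul_zero {j : ℕ} {g : ℝ → ℝ}
    (h : ∀ t ∈ Ioo (j + 1 / 2 : ℝ) (j + 1), chi2 t * g t = 0) :
    ∀ t ∈ Icc (j + 1 / 2 : ℝ) (j + 1), chi2 t * g t = 0 := by
  intro t ht
  rcases ht.1.eq_or_lt with h1 | h1
  · rw [← h1, chi2_left, zero_mul]
  · rcases ht.2.eq_or_lt with h2 | h2
    · rw [h2, chi2_right, zero_mul]
    · exact h t ⟨h1, h2⟩

/-! ### the `y` and `x` components -/

lemma be_hasDerivAt (P : Par) (x : ℝ) : HasDerivAt P.be (P.bex x) x := by
  unfold Par.be Par.bex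
  have h2 : HasDerivAt (fun x : ℝ => 4 * π * x) (4 * π) x := by
    simpa using (hasDerivAt_id x).const_mul (4 * π)
  refine ((h2.sin.const_mul P.m1).div_const (4 * π)).congr_deriv ?_
  field_simp

lemma be_add_int (P : Par) (x : ℝ) (a : ℤ) : P.be (x + a) = P.be x := by
  unfold Par.be
  have : 4 * π * (x + a) = 4 * π * x + ((2 * a : ℤ) : ℝ) * (2 * π) := by
    push_cast
    ring
  rw [this, Real.sin_add_int_mul_two_pi]

lemma cos_two_pi_add_int (x : ℝ) (a : ℤ) : cos (2 * π * (x + a)) = cos (2 * π * x) := by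
  have : 2 * π * (x + a) = 2 * π * x + (a : ℝ) * (2 * π) := by ring
  rw [this, Real.cos_add_int_mul_two_pi]

lemma sin_two_pi_add_int (x : ℝ) (a : ℤ) : sin (2 * π * (x + a)) = sin (2 * π * x) := by
  have : 2 * π * (x + a) = 2 * π * x + (a : ℝ) * (2 * π) := by ring
  rw [this, Real.sin_add_int_mul_two_pi]

lemma half_int_of_sin {u : ℝ} (h : sin (2 * π * u) = 0) :
    ∃ k : ℤ, u = k ∨ u = k + 1 / 2 := by
  obtain ⟨n, hn⟩ := Real.sin_eq_zero_iff.1 h
  have h1 : (n : ℝ) = 2 * u := by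
    have := Real.pi_pos
    have h2 : π * (n - 2 * u) = 0 := by linarith
    rcases mul_eq_zero.1 h2 with h3 | h3
    · exact absurd h3 this.ne'
    · linarith
  rcases Int.even_or_odd' n with ⟨k, hk | hk⟩
  · refine ⟨k, Or.inl ?_⟩
    rw [hk] at h1
    push_cast at h1
    linarith
  · refine ⟨k, Or.inr ?_⟩
    rw [hk] at h1
    push_cast at h1
    linarith

/-- the dynamics of a function satisfying `w' = chi2 * (± sin (2 π w) / (2 π))` -/
lemma const_of_sine {w : ℝ → ℝ} {N : ℕ} (hN : 0 < N) (σ : ℝ) (hσ : σ = 1 ∨ σ = -1) (b : ℤ)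
    (hd : ∀ j : ℕ, j < N → ∀ t ∈ Icc (j + 1 / 2 : ℝ) (j + 1),
      HasDerivAt w (chi2 t * (σ * (sin (2 * π * w t) / (2 * π)))) t)
    (hc : ∀ j : ℕ, w (j + 3 / 2) = w (j + 1)) (hp : w (1 / 2 + N) = w (1 / 2) + b) :
    (∀ j : ℕ, j < N → ∀ t ∈ Icc (j + 1 / 2 : ℝ) (j + 1), w t = w (1 / 2)) ∧
      ∃ k : ℤ, w (1 / 2) = k ∨ w (1 / 2) = k + 1 / 2 := by
  have hσ2 : σ * σ = 1 := by rcases hσ with h | h <;> rw [h] <;> norm_num
  have hpi := Real.pi_pos
  have hdF : ∀ j : ℕ, j < N → ∀ t ∈ Icc (j + 1 / 2 : ℝ) (j + 1),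
      HasDerivAt (fun t => -σ * cos (2 * π * w t)) (chi2 t * sin (2 * π * w t) ^ 2) t := by
    intro j hj t ht
    have h1 := (((hd j hj t ht).const_mul (2 * π)).cos).const_mul (-σ)
    refine h1.congr_deriv ?_
    have h5 : 2 * π * (chi2 t * (σ * (sin (2 * π * w t) / (2 * π)))) =
        chi2 t * σ * sin (2 * π * w t) := by
      field_simp
    rw [h5]
    linear_combination (chi2 t * sin (2 * π * w t) ^ 2) * hσ2
  have h0 := chain_zero hdF (fun j hj t ht => mul_nonneg (chi2_nonneg t) (sq_nonneg _))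
    (fun j => by simp only [hc j]) (by rw [hp, cos_two_pi_add_int])
  have h0' : ∀ j : ℕ, j < N → ∀ t ∈ Icc (j + 1 / 2 : ℝ) (j + 1),
      chi2 t * sin (2 * π * w t) ^ 2 = 0 := fun j hj => chi2_mul_zero (h0 j hj)
  have h1 : ∀ j : ℕ, j < N → ∀ t ∈ Ioo (j + 1 / 2 : ℝ) (j + 1),
      chi2 t * (σ * (sin (2 * π * w t) / (2 * π))) = 0 := by
    intro j hj t ht
    rcases mul_eq_zero.1 (h0 j hj t ht) with h | h
    · rw [h, zero_mul]
    · rw [pow_eq_zero_iff two_ne_zero] at h
      rw [h]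
      simp
  have hconst := chain_const hd h1 hc
  refine ⟨hconst, ?_⟩
  obtain ⟨t, ht, hne⟩ := exists_chi2_ne
  have h2 := h0 0 hN t ht
  have h3 : sin (2 * π * w t) = 0 := by
    rcases mul_eq_zero.1 h2 with h | h
    · exact absurd h hne
    · rwa [pow_eq_zero_iff two_ne_zero] at h
  have h4 := hconst 0 hN t (Ioo_subset_Icc_self ht)
  rw [h4] at h3
  exact half_int_of_sin h3

lemma trig_int (k : ℤ) : cos (2 * π * (k : ℝ)) = 1 ∧ sin (2 * π * (k : ℝ)) = 0 := by
  constructor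
  · rw [show 2 * π * (k : ℝ) = 0 + (k : ℝ) * (2 * π) by ring, Real.cos_add_int_mul_two_pi, cos_zero]
  · rw [show 2 * π * (k : ℝ) = 0 + (k : ℝ) * (2 * π) by ring, Real.sin_add_int_mul_two_pi, sin_zero]

lemma trig_half (k : ℤ) : cos (2 * π * ((k : ℝ) + 1 / 2)) = -1 ∧
    sin (2 * π * ((k : ℝ) + 1 / 2)) = 0 := by
  constructor
  · rw [show 2 * π * ((k : ℝ) + 1 / 2) = π + (k : ℝ) * (2 * π) by ring,
      Real.cos_add_int_mul_two_pi, cos_pi]
  · rw [show 2 * π * ((k : ℝ) + 1 / 2) = π + (k : ℝ) * (2 * π) by ring,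
      Real.sin_add_int_mul_two_pi, sin_pi]

lemma cos_pi_sq (y : ℝ) : cos (π * y) ^ 2 = 1 / 2 + cos (2 * π * y) / 2 := by
  rw [Real.cos_sq]
  ring_nf

lemma sin_pi_sq (y : ℝ) : sin (π * y) ^ 2 = 1 / 2 - cos (2 * π * y) / 2 := by
  rw [Real.sin_sq, cos_pi_sq]
  ring

/-- the two components `x, y` are constant -/
lemma xy_const (P : Par) (x y : ℝ → ℝ) (N : ℕ) (hN : 0 < N) (a b : ℤ)
    (hx : ∀ j : ℕ, j < N → ∀ t ∈ Icc (j + 1 / 2 : ℝ) (j + 1),
      HasDerivAt x (chi2 t * P.fX (x t) (y t)) t)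
    (hy : ∀ j : ℕ, j < N → ∀ t ∈ Icc (j + 1 / 2 : ℝ) (j + 1),
      HasDerivAt y (chi2 t * gY (y t) + dmu t * P.be (x t)) t)
    (cx : ∀ j : ℕ, x (j + 3 / 2) = x (j + 1)) (cy : ∀ j : ℕ, y (j + 3 / 2) = y (j + 1))
    (px : x (1 / 2 + N) = x (1 / 2) + a) (py : y (1 / 2 + N) = y (1 / 2) + b) :
    ∃ m n : ℤ, ∃ X : ℝ, (X = m ∨ X = m + 1 / 2) ∧
      ∀ j : ℕ, j < N → ∀ t ∈ Icc (j + 1 / 2 : ℝ) (j + 1), x t = X ∧ y t = n := by
  have hpi := Real.pi_pos
  set w : ℝ → ℝ := fun t => y t - mu t * P.be (x t) with hw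
  have hmuN : mu (1 / 2 + N) = 1 := by
    have := mu_left N
    rw [add_comm]
    exact this
  have hmu0 : mu (1 / 2) = 1 := by
    have := mu_left 0
    simpa using this
  have hwd : ∀ j : ℕ, j < N → ∀ t ∈ Icc (j + 1 / 2 : ℝ) (j + 1),
      HasDerivAt w (chi2 t * ((-1) * (sin (2 * π * w t) / (2 * π)))) t := by
    intro j hj t ht
    have h1 := (be_hasDerivAt P (x t)).comp t (hx j hj t ht)
    have h2 := (hy j hj t ht).sub ((hasDerivAt_mu t).mul h1)
    refine h2.congr_deriv ?_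
    rcases chi2_or t with h | ⟨h, h'⟩
    · rw [h]
      simp
    · simp only [hw, h, h', gY, Function.comp]
      ring_nf
  have hwc : ∀ j : ℕ, w (j + 3 / 2) = w (j + 1) := by
    intro j
    simp only [hw, cx j, cy j, mu_next j, mu_right j]
  have hwp : w (1 / 2 + N) = w (1 / 2) + b := by
    simp only [hw]
    rw [px, py, hmuN, hmu0, be_add_int]
    ring
  obtain ⟨hwconst, k, hk⟩ := const_of_sine hN (-1) (Or.inr rfl) b hwd hwc hwp
  -- where `chi2` is not zero, `y = w`
  have hyw : ∀ t, chi2 t ≠ 0 → y t = w t := by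
    intro t ht
    rcases chi2_or t with h | ⟨h, _⟩
    · exact absurd h ht
    · simp [hw, h]
  rcases hk with hk | hk
  · -- `w = k`
    have hxd : ∀ j : ℕ, j < N → ∀ t ∈ Icc (j + 1 / 2 : ℝ) (j + 1),
        HasDerivAt x (chi2 t * (1 * (sin (2 * π * x t) / (2 * π)))) t := by
      intro j hj t ht
      refine (hx j hj t ht).congr_deriv ?_
      by_cases h : chi2 t = 0
      · rw [h]
        simp
      · have h1 : y t = k := by rw [hyw t h, hwconst j hj t ht, hk]
        unfold Par.fX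
        rw [h1, cos_pi_sq, sin_pi_sq, (trig_int k).1, (trig_int k).2]
        ring
    obtain ⟨hxconst, m, hm⟩ := const_of_sine hN 1 (Or.inl rfl) a hxd cx px
    refine ⟨m, k, x (1 / 2), hm, ?_⟩
    intro j hj t ht
    refine ⟨hxconst j hj t ht, ?_⟩
    have h1 := hwconst j hj t ht
    rw [hk] at h1
    simp only [hw] at h1
    have h2 : P.be (x t) = 0 := by
      rw [hxconst j hj t ht]
      unfold Par.be
      have h3 : sin (4 * π * x (1 / 2)) = 0 := by
        rw [show 4 * π * x (1 / 2) = 2 * (2 * π * x (1 / 2)) by ring, Real.sin_two_mul]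
        rcases hm with h | h
        · rw [h, (trig_int m).2]
          ring
        · rw [h, (trig_half m).2]
          ring
      rw [h3]
      simp
    rw [h2] at h1
    linarith
  · -- `w = k + 1/2`: impossible
    exfalso
    have hxd : ∀ j : ℕ, j < N → ∀ t ∈ Icc (j + 1 / 2 : ℝ) (j + 1),
        HasDerivAt x (√2 * chi2 t) t := by
      intro j hj t ht
      refine (hx j hj t ht).congr_deriv ?_
      by_cases h : chi2 t = 0
      · rw [h]
        simp
      · have h1 : y t = k + 1 / 2 := by rw [hyw t h, hwconst j hj t ht, hk]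
        unfold Par.fX
        rw [h1, cos_pi_sq, sin_pi_sq, (trig_half k).1, (trig_half k).2]
        ring
    have hind : ∀ j : ℕ, j ≤ N → x (j + 1 / 2) = x (1 / 2) + j * √2 := by
      intro j
      induction j with
      | zero => intro _; simp
      | succ j ih =>
        intro hj
        have h1 := slot_incr (hxd j (by omega))
        have h2 : ((j + 1 : ℕ) : ℝ) + 1 / 2 = j + 3 / 2 := by
          push_cast
          ring
        rw [h2, cx j, h1, ih (by omega)]
        push_cast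
        ring
    have h1 := hind N le_rfl
    rw [add_comm, px] at h1
    have h2 : (N : ℝ) * √2 = a := by linarith
    have h3 : √2 = (a : ℝ) / N := by
      have : (N : ℝ) ≠ 0 := by positivity
      field_simp
      linarith
    apply irrational_sqrt_two
    exact ⟨(a : ℚ) / N, by rw [h3]; push_cast; rfl⟩

/-! ### the angle -/

section angle

variable (P : Par) (z : ℝ → ℝ) (N : ℕ) (σ : ℝ)

/-- conjugated covector component -/
def X1 (P : Par) (z : ℝ → ℝ) (t : ℝ) : ℝ := cos (om * z t) + mu t * P.m1 * sin (om * z t)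

/-- angular speed -/
def Dz0 (P : Par) (z : ℝ → ℝ) (σ t : ℝ) : ℝ :=
  chi2 t * ((σ + 1) * sin (om * z t) * cos (om * z t) - P.sl * cos (om * z t) ^ 2) +
    dmu t * P.m1 * sin (om * z t) ^ 2

variable {P z N σ}

lemma sin_deriv {t : ℝ} (h : HasDerivAt z (Dz0 P z σ t / om) t) :
    HasDerivAt (fun t => sin (om * z t)) (cos (om * z t) * Dz0 P z σ t) t := by
  have hom : om ≠ 0 := by
    unfold om
    have := Real.pi_pos
    positivity
  have h1 := (h.const_mul om).sin
  refine h1.congr_deriv ?_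
  field_simp

lemma cos_deriv {t : ℝ} (h : HasDerivAt z (Dz0 P z σ t / om) t) :
    HasDerivAt (fun t => cos (om * z t)) (-sin (om * z t) * Dz0 P z σ t) t := by
  have hom : om ≠ 0 := by
    unfold om
    have := Real.pi_pos
    positivity
  have h1 := (h.const_mul om).cos
  refine h1.congr_deriv ?_
  field_simp

/-- derivative of `X1` -/
def X1' (P : Par) (z : ℝ → ℝ) (σ t : ℝ) : ℝ :=
  -sin (om * z t) * Dz0 P z σ t + (dmu t * P.m1 * sin (om * z t) +
    mu t * P.m1 * (cos (om * z t) * Dz0 P z σ t))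

lemma X1_deriv {t : ℝ} (h : HasDerivAt z (Dz0 P z σ t / om) t) :
    HasDerivAt (X1 P z) (X1' P z σ t) t :=
  (cos_deriv h).add (((hasDerivAt_mu t).mul_const P.m1).mul (sin_deriv h))

/-- the Wronskian -/
lemma wronskian (t : ℝ) :
    X1' P z σ t * sin (om * z t) - X1 P z t * (cos (om * z t) * Dz0 P z σ t) =
      -chi2 t * ((σ + 1) * sin (om * z t) * X1 P z t - P.sl * X1 P z t ^ 2) := by
  have h1 := Real.sin_sq_add_cos_sq (om * z t)
  unfold X1' X1
  rcases chi2_or t with h | ⟨h, h'⟩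
  · unfold Dz0
    rw [h]
    linear_combination (-dmu t * P.m1 * sin (om * z t) ^ 2) * h1
  · unfold Dz0
    rw [h, h']
    linear_combination (-chi2 t * ((σ + 1) * sin (om * z t) * cos (om * z t) -
      P.sl * cos (om * z t) ^ 2)) * h1

lemma X1_ne_or (t : ℝ) : X1 P z t ≠ 0 ∨ sin (om * z t) ≠ 0 := by
  by_contra h
  push Not at h
  obtain ⟨h1, h2⟩ := h
  unfold X1 at h1
  rw [h2] at h1
  have h3 := Real.sin_sq_add_cos_sq (om * z t)
  rw [h2] at h3
  have h4 : cos (om * z t) = 0 := by linarith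
  rw [h4] at h3
  norm_num at h3

lemma sin_om_add_int (u : ℝ) (c : ℤ) : sin (om * (u + c)) = sin (om * u) := sin_two_pi_add_int u c

lemma cos_om_add_int (u : ℝ) (c : ℤ) : cos (om * (u + c)) = cos (om * u) := cos_two_pi_add_int u c

/-- the case `x = 0` -/
lemma angle_zero (hN : 0 < N) (c : ℤ)
    (hz : ∀ j : ℕ, j < N → ∀ t ∈ Icc (j + 1 / 2 : ℝ) (j + 1), HasDerivAt z (Dz0 P z 1 t / om) t)
    (cz : ∀ j : ℕ, z (j + 3 / 2) = z (j + 1)) (pz : z (1 / 2 + N) = z (1 / 2) + c) :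
    X1 P z (1 / 2) = 0 ∨ 2 * sin (om * z (1 / 2)) - P.sl * X1 P z (1 / 2) = 0 := by
  set X2 : ℝ → ℝ := fun t => 2 * sin (om * z t) - P.sl * X1 P z t with hX2
  have hpos : ∀ t, 0 < X1 P z t ^ 2 + X2 t ^ 2 := by
    intro t
    rcases eq_or_ne (X1 P z t) 0 with h | h
    · have h1 := (X1_ne_or (P := P) (z := z) t).resolve_left (by simpa using h)
      have h2 : X2 t = 2 * sin (om * z t) := by simp [hX2, h]
      rw [h, h2]
      positivity
    · positivity
  set F : ℝ → ℝ := fun t => -(X1 P z t ^ 2 / (X1 P z t ^ 2 + X2 t ^ 2)) with hF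
  set F' : ℝ → ℝ := fun t =>
    chi2 t * (4 * X1 P z t ^ 2 * X2 t ^ 2 / (X1 P z t ^ 2 + X2 t ^ 2) ^ 2) with hF'
  have hd : ∀ j : ℕ, j < N → ∀ t ∈ Icc (j + 1 / 2 : ℝ) (j + 1), HasDerivAt F (F' t) t := by
    intro j hj t ht
    have h1 := X1_deriv (hz j hj t ht)
    have h2 : HasDerivAt X2 (2 * (cos (om * z t) * Dz0 P z 1 t) - P.sl * X1' P z 1 t) t :=
      ((sin_deriv (hz j hj t ht)).const_mul 2).sub (h1.const_mul P.sl)
    have h3 := ((h1.pow 2).div ((h1.pow 2).add (h2.pow 2)) (hpos t).ne').neg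
    refine h3.congr_deriv ?_
    have hw := wronskian (P := P) (z := z) (σ := 1) t
    have hne := (hpos t).ne'
    have hX2t : X2 t = 2 * sin (om * z t) - P.sl * X1 P z t := rfl
    simp only [hF', Pi.add_apply, Pi.pow_apply]
    rw [← neg_div, ← mul_div_assoc]
    congr 1
    rw [hX2t]
    have hs : sin (om * z t) * (2 * X1' P z 1 t) - X1 P z t * (2 * (cos (om * z t) * Dz0 P z 1 t)) =
      -2 * chi2 t * X1 P z t * (2 * sin (om * z t) - P.sl * X1 P z t) := by
      linear_combination 2 * hw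
    push_cast
    linear_combination (-2 * X1 P z t * (2 * sin (om * z t) - P.sl * X1 P z t)) * hs
  have hn : ∀ j : ℕ, j < N → ∀ t ∈ Ioo (j + 1 / 2 : ℝ) (j + 1), 0 ≤ F' t := by
    intro j hj t ht
    have := chi2_nonneg t
    have := hpos t
    simp only [hF']
    positivity
  have hc : ∀ j : ℕ, F (j + 3 / 2) = F (j + 1) := by
    intro j
    simp only [hF, hX2, X1, cz j, mu_next j, mu_right j]
  have hp : F (1 / 2 + N) = F (1 / 2) := by
    have hmuN : mu (1 / 2 + N) = 1 := by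
      have := mu_left N
      rw [add_comm]
      exact this
    have hmu0 : mu (1 / 2) = 1 := by
      have := mu_left 0
      simpa using this
    simp only [hF, hX2, X1, pz, hmuN, hmu0, sin_om_add_int, cos_om_add_int]
  have h0 := chain_zero hd hn hc hp
  have hconst := chain_const hd h0 hc
  obtain ⟨t, ht, hne⟩ := exists_chi2_ne
  have h1 := h0 0 hN t ht
  have h2 := hconst 0 hN t (Ioo_subset_Icc_self ht)
  have h3 : X1 P z t = 0 ∨ X2 t = 0 := by
    simp only [hF'] at h1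
    have hne2 := (hpos t).ne'
    rcases mul_eq_zero.1 h1 with h | h
    · exact absurd h hne
    · rcases div_eq_zero_iff.1 h with h' | h'
      · rcases mul_eq_zero.1 h' with h'' | h''
        · left
          rcases mul_eq_zero.1 h'' with h3 | h3
          · norm_num at h3
          · exact (pow_eq_zero_iff two_ne_zero).1 h3
        · right
          exact (pow_eq_zero_iff two_ne_zero).1 h''
      · exact absurd ((pow_eq_zero_iff two_ne_zero).1 h') hne2
  have hp0 := hpos (1 / 2)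
  rcases h3 with h3 | h3
  · left
    simp only [hF] at h2
    rw [h3] at h2
    have h4 : X1 P z (1 / 2) ^ 2 / (X1 P z (1 / 2) ^ 2 + X2 (1 / 2) ^ 2) = 0 := by
      simpa using h2
    rcases div_eq_zero_iff.1 h4 with h' | h'
    · exact (pow_eq_zero_iff two_ne_zero).1 h'
    · exact absurd h' hp0.ne'
  · right
    simp only [hF] at h2
    rw [h3] at h2
    have hx : X1 P z t ^ 2 ≠ 0 := by
      have := hpos t
      rw [h3] at this
      intro h
      rw [h] at this
      norm_num at this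
    have h4 : X1 P z (1 / 2) ^ 2 / (X1 P z (1 / 2) ^ 2 + X2 (1 / 2) ^ 2) = 1 := by
      have h5 : X1 P z t ^ 2 / (X1 P z t ^ 2 + 0 ^ 2) = 1 := by
        rw [show X1 P z t ^ 2 + 0 ^ 2 = X1 P z t ^ 2 by ring, div_self hx]
      linarith
    rw [div_eq_one_iff_eq hp0.ne'] at h4
    have h6 : X2 (1 / 2) ^ 2 = 0 := by linarith
    exact (pow_eq_zero_iff two_ne_zero).1 h6

/-- the case `x = 1/2` -/
lemma angle_half (hN : 0 < N) (c : ℤ) (hsl : 0 < P.sl)
    (hz : ∀ j : ℕ, j < N → ∀ t ∈ Icc (j + 1 / 2 : ℝ) (j + 1),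
      HasDerivAt z (Dz0 P z (-1) t / om) t)
    (cz : ∀ j : ℕ, z (j + 3 / 2) = z (j + 1)) (pz : z (1 / 2 + N) = z (1 / 2) + c) :
    X1 P z (1 / 2) = 0 := by
  by_contra hne
  -- `X1' = h X1`
  have hX1' : ∀ t, X1' P z (-1) t =
      (chi2 t * P.sl + dmu t * P.m1) * sin (om * z t) * cos (om * z t) * X1 P z t := by
    intro t
    have h1 := Real.sin_sq_add_cos_sq (om * z t)
    unfold X1' X1
    rcases chi2_or t with h | ⟨h, h'⟩
    · unfold Dz0
      rw [h]
      linear_combination (-dmu t * P.m1 * sin (om * z t)) * h1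
    · unfold Dz0
      rw [h, h']
      ring
  have hnz : ∀ j : ℕ, j < N → X1 P z (j + 1 / 2) ≠ 0 →
      ∀ t ∈ Icc (j + 1 / 2 : ℝ) (j + 1), X1 P z t ≠ 0 := by
    intro j hj h0 t ht
    have hcont : Continuous fun t => |chi2 t * P.sl| + |dmu t * P.m1| := by
      have h1 := chi2_contDiff.continuous
      have h2 := dmu_contDiff.continuous
      fun_prop
    obtain ⟨K, hK⟩ := (isCompact_Icc (a := (j + 1 / 2 : ℝ)) (b := j + 1)).exists_bound_of_continuousOn
      hcont.continuousOn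
    have hm : MonotoneOn (fun t => X1 P z t ^ 2 * exp (2 * K * t))
        (Icc (j + 1 / 2 : ℝ) (j + 1)) := by
      refine slot_mono (F' := fun t => 2 * ((chi2 t * P.sl + dmu t * P.m1) * sin (om * z t) *
        cos (om * z t) + K) * X1 P z t ^ 2 * exp (2 * K * t)) ?_ ?_
      · intro s hs
        have h1 := X1_deriv (hz j hj s hs)
        have h2 : HasDerivAt (fun s : ℝ => exp (2 * K * s)) (exp (2 * K * s) * (2 * K)) s := by
          have h3 : HasDerivAt (fun s : ℝ => 2 * K * s) (2 * K) s := by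
            simpa using (hasDerivAt_id s).const_mul (2 * K)
          exact h3.exp
        refine ((h1.pow 2).mul h2).congr_deriv ?_
        rw [hX1' s]
        simp only [Pi.pow_apply]
        push_cast
        ring
      · intro s hs
        have h1 := hK s (Ioo_subset_Icc_self hs)
        rw [Real.norm_eq_abs, abs_of_nonneg (by positivity)] at h1
        have h2 : |(chi2 s * P.sl + dmu s * P.m1) * sin (om * z s) * cos (om * z s)| ≤ K := by
          rw [abs_mul, abs_mul]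
          have h3 := Real.abs_sin_le_one (om * z s)
          have h4 := Real.abs_cos_le_one (om * z s)
          have h5 := abs_add_le (chi2 s * P.sl) (dmu s * P.m1)
          calc |chi2 s * P.sl + dmu s * P.m1| * |sin (om * z s)| * |cos (om * z s)|
              ≤ |chi2 s * P.sl + dmu s * P.m1| * 1 * 1 := by gcongr
            _ ≤ K := by linarith
        have h3 := (abs_le.1 h2).1
        have h4 : 0 ≤ (chi2 s * P.sl + dmu s * P.m1) * sin (om * z s) * cos (om * z s) + K := by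
          linarith
        positivity
    have h1 := hm ⟨le_refl _, by linarith⟩ ht ht.1
    simp only at h1
    intro h2
    rw [h2] at h1
    have h3 : 0 < X1 P z (j + 1 / 2) ^ 2 * exp (2 * K * (j + 1 / 2)) := by positivity
    have h4 : (0 : ℝ) ^ 2 * exp (2 * K * t) = 0 := by ring
    linarith
  have hind : ∀ j : ℕ, j ≤ N → X1 P z (j + 1 / 2) ≠ 0 ∧
      sin (om * z (j + 1 / 2)) / X1 P z (j + 1 / 2) =
        sin (om * z (1 / 2)) / X1 P z (1 / 2) - j * P.sl := by
    intro j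
    induction j with
    | zero =>
      intro _
      simpa using hne
    | succ j ih =>
      intro hj
      obtain ⟨ih1, ih2⟩ := ih (by omega)
      have h1 := hnz j (by omega) ih1
      have h2 : ((j + 1 : ℕ) : ℝ) + 1 / 2 = j + 3 / 2 := by
        push_cast
        ring
      have h3 : X1 P z (j + 3 / 2) = X1 P z (j + 1) := by
        simp only [X1, cz j, mu_next j, mu_right j]
      have h4 := slot_incr (F := fun t => sin (om * z t) / X1 P z t) (j := j) (c := -P.sl) (by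
        intro t ht
        have h5 := (sin_deriv (hz j (by omega) t ht)).div (X1_deriv (hz j (by omega) t ht)) (h1 t ht)
        refine h5.congr_deriv ?_
        have h6 := wronskian (P := P) (z := z) (σ := -1) t
        have h7 := h1 t ht
        field_simp
        linear_combination -h6)
      refine ⟨?_, ?_⟩
      · rw [h2, h3]
        exact h1 _ ⟨by linarith, le_refl _⟩
      · rw [h2, h3, cz j, h4, ih2]
        push_cast
        ring
  obtain ⟨_, h1⟩ := hind N le_rfl
  have hmuN : mu (1 / 2 + N) = 1 := by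
    have := mu_left N
    rw [add_comm]
    exact this
  have hmu0 : mu (1 / 2) = 1 := by
    have := mu_left 0
    simpa using this
  have h2 : X1 P z (1 / 2 + N) = X1 P z (1 / 2) := by
    simp only [X1, pz, hmuN, hmu0, sin_om_add_int, cos_om_add_int]
  rw [add_comm] at h1
  rw [h2, pz, sin_om_add_int] at h1
  have h3 : (0 : ℝ) < N * P.sl := by positivity
  linarith

end angle

lemma sin_om_pos {u : ℝ} (h0 : 0 < u) (h1 : u < 1 / 2) : 0 < sin (om * u) := by
  have hpi := Real.pi_pos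
  apply Real.sin_pos_of_pos_of_lt_pi
  · unfold om
    positivity
  · unfold om
    nlinarith

lemma exists_int_of_sin {u v : ℝ} (h : sin (om * (v - u)) = 0) :
    ∃ l : ℤ, u = v + l ∨ u = v + 1 / 2 + l := by
  obtain ⟨k, hk | hk⟩ := half_int_of_sin (u := v - u) h
  · refine ⟨-k, Or.inl ?_⟩
    push_cast
    linarith
  · refine ⟨-k - 1, Or.inr ?_⟩
    push_cast
    linarith

end Pool.Agent.Helper48.EngelJ

namespace Pool.Agent.Helper53.Engel

open Pool.Agent.Helper48.EngelJ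

theorem base_periodic (P : Par) (hz0 : |P.z0 - 1 / 8| < 1 / 100) (hz1 : |P.z1 - 1 / 4| < 1 / 100)
    (x y z : ℝ → ℝ) (N : ℕ) (hN : 0 < N) (a b c : ℤ)
    (hx : ∀ j : ℤ, ∀ t ∈ Set.Icc (j + 1 / 2 : ℝ) (j + 1),
      HasDerivAt x (chi2 t * P.fX (x t) (y t)) t)
    (hy : ∀ j : ℤ, ∀ t ∈ Set.Icc (j + 1 / 2 : ℝ) (j + 1),
      HasDerivAt y (chi2 t * gY (y t) + dmu t * P.be (x t)) t)
    (hz : ∀ j : ℤ, ∀ t ∈ Set.Icc (j + 1 / 2 : ℝ) (j + 1),
      HasDerivAt z (P.zdot t (x t) (y t) (z t)) t)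
    (cx : ∀ j : ℤ, x (j + 3 / 2) = x (j + 1)) (cy : ∀ j : ℤ, y (j + 3 / 2) = y (j + 1))
    (cz : ∀ j : ℤ, z (j + 3 / 2) = z (j + 1))
    (px : x (1 / 2 + N) = x (1 / 2) + a) (py : y (1 / 2 + N) = y (1 / 2) + b)
    (pz : z (1 / 2 + N) = z (1 / 2) + c) :
    (∃ m n l : ℤ, x (1 / 2) = m ∧ y (1 / 2) = n ∧
      (z (1 / 2) = P.z0 + l ∨ z (1 / 2) = P.z0 + 1 / 2 + l ∨ z (1 / 2) = P.z1 + l ∨
        z (1 / 2) = P.z1 + 1 / 2 + l)) ∨
    (∃ m n l : ℤ, x (1 / 2) = m + 1 / 2 ∧ y (1 / 2) = n ∧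
      (z (1 / 2) = P.z1 + l ∨ z (1 / 2) = P.z1 + 1 / 2 + l)) := by
  have hz0' := abs_lt.1 hz0
  have hz1' := abs_lt.1 hz1
  have s0 : 0 < sin (om * P.z0) := sin_om_pos (by linarith [hz0'.1]) (by linarith [hz0'.2])
  have s1 : 0 < sin (om * P.z1) := sin_om_pos (by linarith [hz1'.1]) (by linarith [hz1'.2])
  have s01 : 0 < sin (om * (P.z1 - P.z0)) :=
    sin_om_pos (by linarith [hz0'.2, hz1'.1]) (by linarith [hz0'.1, hz1'.2])
  have hdiff : 0 < cos (om * P.z0) / sin (om * P.z0) - cos (om * P.z1) / sin (om * P.z1) := by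
    rw [div_sub_div _ _ s0.ne' s1.ne']
    apply div_pos _ (by positivity)
    have : om * (P.z1 - P.z0) = om * P.z1 - om * P.z0 := by ring
    rw [this, Real.sin_sub] at s01
    linarith
  have hsl : 0 < P.sl := by
    unfold Par.sl
    positivity
  obtain ⟨m, n, X, hX, hconst⟩ := xy_const P x y N hN a b
    (fun j _ => by simpa using hx j) (fun j _ => by simpa using hy j)
    (fun j => by simpa using cx j) (fun j => by simpa using cy j) px py
  have hhalf : (1 / 2 : ℝ) ∈ Icc ((0 : ℕ) + 1 / 2 : ℝ) ((0 : ℕ) + 1) := ⟨by norm_num, by norm_num⟩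
  obtain ⟨hx0, hy0⟩ := hconst 0 hN (1 / 2) hhalf
  have hmu0 : mu (1 / 2) = 1 := by
    have := mu_left 0
    simpa using this
  have hz' : ∀ σ : ℝ, cos (2 * π * X) = σ → sin (2 * π * X) = 0 → ∀ j : ℕ, j < N →
      ∀ t ∈ Icc (j + 1 / 2 : ℝ) (j + 1), HasDerivAt z (Dz0 P z σ t / om) t := by
    intro σ hσ hs j hj t ht
    have h1 := hz j t (by simpa using ht)
    refine h1.congr_deriv ?_
    obtain ⟨e1, e2⟩ := hconst j hj t ht
    rw [e1, e2]
    unfold Par.zdot Dz0 fXx gYy Par.fXy Par.bex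
    have e3 := (trig_int n).1
    have e4 := (trig_int n).2
    have e5 : cos (4 * π * X) = 1 := by
      rw [show 4 * π * X = 2 * (2 * π * X) by ring, Real.cos_two_mul']
      have := Real.sin_sq_add_cos_sq (2 * π * X)
      rw [hs] at this ⊢
      linarith
    rw [cos_pi_sq, e3, e4, e5, hσ, hs]
    ring
  -- translation of the conclusions on `X1`
  have conc1 : X1 P z (1 / 2) = 0 → ∃ l : ℤ, z (1 / 2) = P.z1 + l ∨ z (1 / 2) = P.z1 + 1 / 2 + l := by
    intro h
    apply exists_int_of_sin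
    unfold X1 at h
    rw [hmu0, Par.m1] at h
    rw [show om * (P.z1 - z (1 / 2)) = om * P.z1 - om * z (1 / 2) by ring, Real.sin_sub]
    field_simp at h
    linarith
  have conc2 : 2 * sin (om * z (1 / 2)) - P.sl * X1 P z (1 / 2) = 0 →
      ∃ l : ℤ, z (1 / 2) = P.z0 + l ∨ z (1 / 2) = P.z0 + 1 / 2 + l := by
    intro h
    apply exists_int_of_sin
    unfold X1 at h
    rw [hmu0, Par.m1, Par.sl] at h
    rw [show om * (P.z0 - z (1 / 2)) = om * P.z0 - om * z (1 / 2) by ring, Real.sin_sub]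
    set D := cos (om * P.z0) / sin (om * P.z0) - cos (om * P.z1) / sin (om * P.z1) with hD
    have h2 : sin (om * z (1 / 2)) * D = cos (om * z (1 / 2)) +
        1 * -(cos (om * P.z1) / sin (om * P.z1)) * sin (om * z (1 / 2)) := by
      have h3 : 2 / D * (cos (om * z (1 / 2)) +
        1 * -(cos (om * P.z1) / sin (om * P.z1)) * sin (om * z (1 / 2))) =
          2 * sin (om * z (1 / 2)) := by linarith
      rw [div_mul_eq_mul_div, div_eq_iff hdiff.ne'] at h3
      linarith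
    rw [hD] at h2
    field_simp at h2
    have h4 : sin (om * P.z1) * (sin (om * P.z0) * cos (om * z (1 / 2)) -
        cos (om * P.z0) * sin (om * z (1 / 2))) = 0 := by
      linarith
    rcases mul_eq_zero.1 h4 with h5 | h5
    · exact absurd h5 s1.ne'
    · exact h5
  rcases hX with hX | hX
  · left
    have h1 := angle_zero hN c (hz' 1 (by rw [hX]; exact (trig_int m).1)
      (by rw [hX]; exact (trig_int m).2)) (fun j => by simpa using cz j) pz
    rcases h1 with h1 | h1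
    · obtain ⟨l, hl | hl⟩ := conc1 h1
      · exact ⟨m, n, l, by rw [hx0, hX], hy0, Or.inr (Or.inr (Or.inl hl))⟩
      · exact ⟨m, n, l, by rw [hx0, hX], hy0, Or.inr (Or.inr (Or.inr hl))⟩
    · obtain ⟨l, hl | hl⟩ := conc2 h1
      · exact ⟨m, n, l, by rw [hx0, hX], hy0, Or.inl hl⟩
      · exact ⟨m, n, l, by rw [hx0, hX], hy0, Or.inr (Or.inl hl)⟩
  · right
    have h1 := angle_half hN c hsl (hz' (-1) (by rw [hX]; exact (trig_half m).1)
      (by rw [hX]; exact (trig_half m).2)) (fun j => by simpa using cz j) pz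
    obtain ⟨l, hl⟩ := conc1 h1
    exact ⟨m, n, l, by rw [hx0, hX], hy0, hl⟩

end Pool.Agent.Helper53.Engel
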