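import Pool.Agent.Helper48.Univ4
import Pool.Agent.Helper9.FlatSim

/-!
Existence of a universal machine for the definition `IsUniversal` of `Defs`.
-/

namespace Pool.Agent.Helper48

open Pool.Agent.Helper72 Function Turing

theorem Outputs.mono {M : TM2ComputableAux Bool Bool} {y x : List Bool} {t t' : ℕ}
    (h : Outputs M y x t) (ht : t ≤ t') : Outputs M y x t' := by
  obtain ⟨h⟩ := h
  exact ⟨⟨h.toEvalsTo, h.steps_le_m.trans ht⟩⟩

theorem univT_PB {f g : ℕ → ℕ} (hf : PB f) (hg : PB g) : PB fun n => univT (f n) (g n) := by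
  have hc : ∀ k : ℕ, PB fun _ => k := PB.const
  have ht : ∀ c : Cmd, PB fun n => c.tb (f n) := fun c => (PB.tb c).comp hf
  have hb : PB fun n => bodyT (f n) := bodyT_PB.comp hf
  have h20 : PB fun n => 20 * (f n + 1) + 10 := ((hc 20).mul (hf.add (hc 1))).add (hc 10)
  unfold univT
  exact ((((h20.add (ht _)).add (ht _)).add (ht _)).add
    ((((hg.add (hc 1)).mul (hb.add (hc 1))).add (hc 1)).add
      ((hc 1).add ((h20.add (ht _)).add (ht _))))).add (hc 1)

/-- There is a universal machine. -/
theorem isUniversal_univTM : IsUniversal univTM := by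
  intro M
  obtain ⟨P, c, h⟩ := Helper9.TM2Sim.exists_flat M
  have hg : PB fun n => c * (n + 1) ^ c := (PB.const c).mul ((PB.id.add (PB.const 1)).pow c)
  have hf : PB fun n => 2 * (prog P).length + 2 * n + 2 * (c * (n + 1) ^ c) + 2 :=
    (((PB.const _).add ((PB.const 2).mul PB.id)).add ((PB.const 2).mul hg)).add (PB.const 2)
  obtain ⟨a, d, had⟩ := univT_PB hf hg
  refine ⟨fun y => enc (prog P) ++ y, max (max a d) (2 * (prog P).length + 1), fun y => ?_,
    fun y x t ho => ?_⟩
  · rw [List.length_append, enc_length]; omega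
  · obtain ⟨T, hT, hrun⟩ := h y x t ho
    have h1 := univTM_outputs P y T (by rw [hrun]) (by rw [hrun]; simp [initSt])
    rw [hrun] at h1
    have h2 : (initSt 1 x) 1 = x := by simp [initSt]
    simp only [h2] at h1
    refine Outputs.mono h1 ?_
    set C := max (max a d) (2 * (prog P).length + 1)
    calc univT (2 * (prog P).length + 2 * y.length + 2 * T + 2) T
        ≤ univT (2 * (prog P).length + 2 * (t + y.length)
          + 2 * (c * ((t + y.length) + 1) ^ c) + 2) (c * ((t + y.length) + 1) ^ c) :=
          univT_mono (by omega) hT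
      _ ≤ a * ((t + y.length) + 1) ^ d := had (t + y.length)
      _ ≤ C * (t + y.length + 1) ^ C :=
          Nat.mul_le_mul (by omega) (Nat.pow_le_pow_right (by omega) (by omega))

theorem exists_universal : ∃ U : TM2ComputableAux Bool Bool, IsUniversal U :=
  ⟨univTM, isUniversal_univTM⟩


end Pool.Agent.Helper48
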