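import Pool.Agent.Helper48.WCmd

/-!
The universal machine: an interpreter for binary-coded flat programs.
-/

namespace Pool.Agent.Helper48

open Pool.Agent.Helper72 Function

/-- registers of the universal machine -/
structure UR where
  i : List Bool := []
  o : List Bool := []
  p : List Bool := []
  q : List Bool := []
  c : List Bool := []
  m : List Bool := []
  n : List Bool := []
  f : List Bool := []
  a : List Bool := []
  r : List Bool := []
  x : List Bool := []
  y : List Bool := []
  z : List Bool := []
  g : List Bool := []

namespace UR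

/-- the register contents described by `u` -/
def st (u : UR) : St
  | 0 => u.i
  | 1 => u.o
  | 2 => u.p
  | 3 => u.q
  | 4 => u.c
  | 5 => u.m
  | 6 => u.n
  | 7 => u.f
  | 8 => u.a
  | 9 => u.r
  | 10 => u.x
  | 11 => u.y
  | 12 => u.z
  | 13 => u.g
  | _ + 14 => []

variable (u : UR) (v : List Bool)

@[simp] theorem st0 : u.st 0 = u.i := rfl
@[simp] theorem st1 : u.st 1 = u.o := rfl
@[simp] theorem st2 : u.st 2 = u.p := rfl
@[simp] theorem st3 : u.st 3 = u.q := rfl
@[simp] theorem st4 : u.st 4 = u.c := rfl
@[simp] theorem st5 : u.st 5 = u.m := rfl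
@[simp] theorem st6 : u.st 6 = u.n := rfl
@[simp] theorem st7 : u.st 7 = u.f := rfl
@[simp] theorem st8 : u.st 8 = u.a := rfl
@[simp] theorem st9 : u.st 9 = u.r := rfl
@[simp] theorem st10 : u.st 10 = u.x := rfl
@[simp] theorem st11 : u.st 11 = u.y := rfl
@[simp] theorem st12 : u.st 12 = u.z := rfl
@[simp] theorem st13 : u.st 13 = u.g := rfl

@[simp] theorem up0 : update u.st 0 v = { u with i := v }.st := by
  funext k
  rcases k with _ | _ | _ | _ | _ | _ | _ | _ | _ | _ | _ | _ | _ | _ | k <;> simp [update, st]
@[simp] theorem up1 : update u.st 1 v = { u with o := v }.st := by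
  funext k
  rcases k with _ | _ | _ | _ | _ | _ | _ | _ | _ | _ | _ | _ | _ | _ | k <;> simp [update, st]
@[simp] theorem up2 : update u.st 2 v = { u with p := v }.st := by
  funext k
  rcases k with _ | _ | _ | _ | _ | _ | _ | _ | _ | _ | _ | _ | _ | _ | k <;> simp [update, st]
@[simp] theorem up3 : update u.st 3 v = { u with q := v }.st := by
  funext k
  rcases k with _ | _ | _ | _ | _ | _ | _ | _ | _ | _ | _ | _ | _ | _ | k <;> simp [update, st]
@[simp] theorem up4 : update u.st 4 v = { u with c := v }.st := by
  funext k
  rcases k with _ | _ | _ | _ | _ | _ | _ | _ | _ | _ | _ | _ | _ | _ | k <;> simp [update, st]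
@[simp] theorem up5 : update u.st 5 v = { u with m := v }.st := by
  funext k
  rcases k with _ | _ | _ | _ | _ | _ | _ | _ | _ | _ | _ | _ | _ | _ | k <;> simp [update, st]
@[simp] theorem up6 : update u.st 6 v = { u with n := v }.st := by
  funext k
  rcases k with _ | _ | _ | _ | _ | _ | _ | _ | _ | _ | _ | _ | _ | _ | k <;> simp [update, st]
@[simp] theorem up7 : update u.st 7 v = { u with f := v }.st := by
  funext k
  rcases k with _ | _ | _ | _ | _ | _ | _ | _ | _ | _ | _ | _ | _ | _ | k <;> simp [update, st]
@[simp] theorem up8 : update u.st 8 v = { u with a := v }.st := by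
  funext k
  rcases k with _ | _ | _ | _ | _ | _ | _ | _ | _ | _ | _ | _ | _ | _ | k <;> simp [update, st]
@[simp] theorem up9 : update u.st 9 v = { u with r := v }.st := by
  funext k
  rcases k with _ | _ | _ | _ | _ | _ | _ | _ | _ | _ | _ | _ | _ | _ | k <;> simp [update, st]
@[simp] theorem up10 : update u.st 10 v = { u with x := v }.st := by
  funext k
  rcases k with _ | _ | _ | _ | _ | _ | _ | _ | _ | _ | _ | _ | _ | _ | k <;> simp [update, st]
@[simp] theorem up11 : update u.st 11 v = { u with y := v }.st := by
  funext k
  rcases k with _ | _ | _ | _ | _ | _ | _ | _ | _ | _ | _ | _ | _ | _ | k <;> simp [update, st]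
@[simp] theorem up12 : update u.st 12 v = { u with z := v }.st := by
  funext k
  rcases k with _ | _ | _ | _ | _ | _ | _ | _ | _ | _ | _ | _ | _ | _ | k <;> simp [update, st]
@[simp] theorem up13 : update u.st 13 v = { u with g := v }.st := by
  funext k
  rcases k with _ | _ | _ | _ | _ | _ | _ | _ | _ | _ | _ | _ | _ | _ | k <;> simp [update, st]

end UR

/-! ### codes -/

/-- self-delimiting unary code of a number -/
def ub (n : ℕ) : List Bool := un n ++ [false]

def ubs (l : List ℕ) : List Bool := l.flatMap ub

/-- self-delimiting code of a word -/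
def enc (x : List Bool) : List Bool := x.flatMap (fun b => [true, b]) ++ [false]

def encs (l : List (List Bool)) : List Bool := l.flatMap enc

@[simp] theorem ubs_nil : ubs [] = [] := rfl
@[simp] theorem ubs_cons (n : ℕ) (l : List ℕ) : ubs (n :: l) = un n ++ (false :: ubs l) := by
  simp [ubs, ub]
theorem ubs_append (l l' : List ℕ) : ubs (l ++ l') = ubs l ++ ubs l' := by
  simp [ubs]
@[simp] theorem enc_nil : enc [] = [false] := rfl
@[simp] theorem enc_cons (b : Bool) (x : List Bool) : enc (b :: x) = true :: b :: enc x := by
  simp [enc]
@[simp] theorem encs_nil : encs [] = [] := rfl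
@[simp] theorem encs_cons (x : List Bool) (l : List (List Bool)) :
    encs (x :: l) = enc x ++ encs l := by
  simp [encs]
theorem encs_append (l l' : List (List Bool)) : encs (l ++ l') = encs l ++ encs l' := by
  simp [encs]

theorem enc_length (x : List Bool) : (enc x).length = 2 * x.length + 1 := by
  induction x with
  | nil => rfl
  | cons b x ih => simp [ih]; omega

theorem un_append_cons (n : ℕ) (l : List Bool) : un n ++ true :: l = true :: (un n ++ l) := by
  induction n with
  | zero => rfl
  | succ n ih => simp only [un, List.replicate_succ, List.cons_append] at ih ⊢; rw [ih]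

@[simp] theorem un_succ (n : ℕ) : un (n + 1) = true :: un n := rfl
@[simp] theorem un_zero : un 0 = [] := rfl

/-! ### skipping blocks of the program -/

def skipB : Cmd := .ite 2 (.pop 4)
  (.seq (.pop 2) (.seq (.push 3 false) (.pop 4))) (.seq (.pop 2) (.push 3 true))

def skipW : WCmd := .wh 4 (.base .nop) (.base skipB)

theorem skip_one (n : ℕ) {u : UR} {cs rest : List Bool} (hc : u.c = true :: cs)
    (hp : u.p = un n ++ false :: rest) {T : ℕ} {s'' : St}
    (k : Does skipW ({ u with c := cs, p := rest, q := false :: (un n ++ u.q) } : UR).st T s'') :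
    Does skipW u.st (20 * (n + 1) + T) s'' := by
  induction n generalizing u with
  | zero =>
    simp only [un_zero, List.nil_append] at hp k
    refine (Does.wh2 (l := cs) (by simpa using hc)
      (Does.base (L := 0) (by rfl) (by simp [skipB, Cmd.LB, hp])) (T' := T) (s'' := s'') ?_).mono
      ?_
    · have : skipB.eval u.st = ({ u with c := cs, p := rest, q := false :: u.q } : UR).st := by
        simp [skipB, Cmd.eval, hp, hc]
      rw [this]; exact k
    · simp [skipB, Cmd.tb]
  | succ n ih =>
    simp only [un_succ, List.cons_append] at hp k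
    refine (Does.wh2 (l := cs) (by simpa using hc)
      (Does.base (L := 0) (by rfl) (by simp [skipB, Cmd.LB, hp]))
      (T' := 20 * (n + 1) + T) (s'' := s'') ?_).mono ?_
    · have : skipB.eval u.st
          = ({ u with p := un n ++ false :: rest, q := true :: u.q } : UR).st := by
        simp [skipB, Cmd.eval, hp]
      rw [this]
      refine ih (by simpa using hc) rfl ?_
      simpa only [un_append_cons] using k
    · simp [skipB, Cmd.tb]; omega

theorem skip_does (l : List ℕ) {u : UR} {rest : List Bool} (hc : u.c = un l.length)
    (hp : u.p = ubs l ++ rest) :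
    Does skipW u.st (20 * (ubs l).length + 1)
      ({ u with c := [], p := rest, q := (ubs l).reverse ++ u.q } : UR).st := by
  induction l generalizing u with
  | nil =>
    simp only [List.length_nil, un_zero, ubs_nil, List.nil_append] at hc hp
    have : ({ u with c := [], p := rest, q := (ubs []).reverse ++ u.q } : UR) = u := by
      cases u; simp_all
    rw [this]
    exact Does.wh0 (by simpa using hc)
  | cons n l ih =>
    simp only [List.length_cons, un_succ, ubs_cons, List.append_assoc, List.cons_append] at hc hp
    refine (skip_one n hc hp (T := 20 * (ubs l).length + 1) ?_).mono ?_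
    · have := @ih ({ u with
        c := un l.length
        p := ubs l ++ rest
        q := false :: (un n ++ u.q) } : UR) rfl rfl
      simpa using this
    · simp; omega

/-! ### reading a field -/

def rdB (X : ℕ) : Cmd := .ite 2 (.pop 7)
  (.seq (.pop 2) (.seq (.push 3 false) (.pop 7)))
  (.seq (.pop 2) (.seq (.push 3 true) (.push X true)))

def rdW (X : ℕ) : WCmd := .seq (.base (.push 7 true)) (.wh 7 (.base .nop) (.base (rdB X)))

theorem rd_aux {X : ℕ} (hX : 8 ≤ X) (n : ℕ) {s : St} {rest : List Bool} (hf : s 7 = [true])
    (hp : s 2 = un n ++ false :: rest) :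
    Does (.wh 7 (.base .nop) (.base (rdB X))) s (20 * (n + 1) + 1)
      (update (update (update (update s 2 rest) 3 (false :: (un n ++ s 3))) X (un n ++ s X))
        7 []) := by
  have h2 : X ≠ 2 := by omega
  have h3 : X ≠ 3 := by omega
  have h7 : X ≠ 7 := by omega
  induction n generalizing s with
  | zero =>
    simp only [un_zero, List.nil_append] at hp ⊢
    refine (Does.wh2 hf (Does.base (L := 0) (by rfl) (by simp [rdB, Cmd.LB, hp]))
      (T' := 1) ?_).mono ?_
    · have : (rdB X).eval s = (update (update (update (update s 2 rest) 3 (false :: s 3)) X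
          (s X)) 7 []) := by
        simp only [rdB, Cmd.eval, hp]
        funext r
        simp only [update_apply]
        split_ifs <;> simp_all
      rw [this]
      exact Does.wh0 (by simp)
    · simp [rdB, Cmd.tb]
  | succ n ih =>
    simp only [un_succ, List.cons_append] at hp ⊢
    refine (Does.wh2 hf (Does.base (L := 0) (by rfl) (by simp [rdB, Cmd.LB, hp]))
      (T' := 20 * (n + 1) + 1) ?_).mono ?_
    · have e : (rdB X).eval s = (update (update (update s 2 (un n ++ false :: rest)) 3
          (true :: s 3)) X (true :: s X)) := by
        simp only [rdB, Cmd.eval, hp]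
        funext r
        simp only [update_apply]
        split_ifs <;> simp_all
      rw [e]
      have := ih (s := (update (update (update s 2 (un n ++ false :: rest)) 3
          (true :: s 3)) X (true :: s X))) (by simp [update_apply, h7.symm, hf])
          (by simp [update_apply, h2.symm])
      convert this using 1
      funext r
      simp only [update_apply, un_append_cons, h2, h3, h7, if_false, if_true]
      split_ifs <;> simp_all [un_append_cons]
    · simp [rdB, Cmd.tb]; omega

theorem rd_does {X : ℕ} (hX : 8 ≤ X) (n : ℕ) {s : St} {rest : List Bool} (hf : s 7 = [])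
    (hp : s 2 = un n ++ false :: rest) :
    Does (rdW X) s (20 * (n + 1) + 2)
      (update (update (update s 2 rest) 3 (false :: (un n ++ s 3))) X (un n ++ s X)) := by
  have h2 : X ≠ 2 := by omega
  have h3 : X ≠ 3 := by omega
  have h7 : X ≠ 7 := by omega
  have h := (Does.base (c := .push 7 true) (s := s) (L := 0) rfl trivial).seq
    (rd_aux hX n (s := Cmd.eval (.push 7 true) s) (rest := rest)
      (by simp [hf]) (by simp [hp]))
  refine Does.mono (T := (Cmd.push 7 true).tb 0 + (20 * (n + 1) + 1)) ?_ (by simp [Cmd.tb]; omega)
  have e : (update (update (update s 2 rest) 3 (false :: (un n ++ s 3))) X (un n ++ s X))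
      = (update (update (update (update ((Cmd.push 7 true).eval s) 2 rest) 3
        (false :: (un n ++ (Cmd.push 7 true).eval s 3))) X
        (un n ++ (Cmd.push 7 true).eval s X)) 7 []) := by
    funext r
    simp only [Cmd.eval_push, update_apply]
    split_ifs <;> simp_all
  rw [e]; exact h

end Pool.Agent.Helper48
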