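import Pool.Agent.Helper48.Univ

/-!
The universal machine, second part: memory access and one interpreted step.
-/

namespace Pool.Agent.Helper48

open Pool.Agent.Helper72 Function

/-! ### walking to a block of the memory -/

def walkB : Cmd := .ite 5 (.pop 9)
  (.seq (.pop 5) (.seq (.push 6 false) (.pop 9)))
  (.seq (.pop 5) (.seq (.push 6 true)
    (.ite 5 .nop (.seq (.pop 5) (.push 6 false)) (.seq (.pop 5) (.push 6 true)))))

def walkW : WCmd := .wh 9 (.base .nop) (.base walkB)

theorem walk_one (w : List Bool) {u : UR} {rs rest : List Bool} (hr : u.r = true :: rs)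
    (hm : u.m = enc w ++ rest) {T : ℕ} {s'' : St}
    (k : Does walkW ({ u with r := rs, m := rest, n := (enc w).reverse ++ u.n } : UR).st T s'') :
    Does walkW u.st (20 * (enc w).length + T) s'' := by
  induction w generalizing u with
  | nil =>
    simp only [enc_nil, List.singleton_append, List.reverse_singleton] at hm k
    refine (Does.wh2 (l := rs) (by simpa using hr)
      (Does.base (L := 0) (by rfl) (by simp [walkB, Cmd.LB, hm])) (T' := T) (s'' := s'') ?_).mono
      ?_
    · have : walkB.eval u.st = ({ u with r := rs, m := rest, n := false :: u.n } : UR).st := by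
        simp [walkB, Cmd.eval, hm, hr]
      rw [this]; exact k
    · simp [walkB, Cmd.tb]
  | cons b w ih =>
    simp only [enc_cons, List.cons_append] at hm
    refine (Does.wh2 (l := rs) (by simpa using hr)
      (Does.base (L := 0) (by rfl) (by cases b <;> simp [walkB, Cmd.LB, hm]))
      (T' := 20 * (enc w).length + T) (s'' := s'') ?_).mono ?_
    · have : walkB.eval u.st
          = ({ u with m := enc w ++ rest, n := b :: true :: u.n } : UR).st := by
        cases b <;> simp [walkB, Cmd.eval, hm]
      rw [this]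
      refine ih (by simpa using hr) rfl ?_
      simpa using k
    · simp [walkB, Cmd.tb]; omega

theorem walk_does (l : List (List Bool)) {u : UR} {rest : List Bool} (hr : u.r = un l.length)
    (hm : u.m = encs l ++ rest) :
    Does walkW u.st (20 * (encs l).length + 1)
      ({ u with r := [], m := rest, n := (encs l).reverse ++ u.n } : UR).st := by
  induction l generalizing u with
  | nil =>
    simp only [List.length_nil, un_zero, encs_nil, List.nil_append] at hr hm
    have : ({ u with r := [], m := rest, n := (encs []).reverse ++ u.n } : UR) = u := by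
      cases u; simp_all
    rw [this]
    exact Does.wh0 (by simpa using hr)
  | cons w l ih =>
    simp only [List.length_cons, un_succ, encs_cons, List.append_assoc] at hr hm
    refine (walk_one w hr hm (T := 20 * (encs l).length + 1) ?_).mono ?_
    · have := @ih ({ u with
        r := un l.length
        m := encs l ++ rest
        n := (enc w).reverse ++ u.n } : UR) rfl rfl
      simpa using this
    · simp; omega

/-! ### executing an instruction -/

/-- the number of an instruction -/
def opc : Instr → ℕ
  | .push _ false _ => 1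
  | .push _ true _ => 2
  | .pop _ _ => 3
  | .test _ _ _ _ => 4

/-- the targets of an instruction -/
def tg0 : Instr → ℕ
  | .push _ _ n => n
  | .pop _ n => n
  | .test _ n _ _ => n

def tg1 : Instr → ℕ
  | .test _ _ n _ => n
  | _ => 0

def tg2 : Instr → ℕ
  | .test _ _ _ n => n
  | _ => 0

def execB : Cmd :=
  .ite 8 (.pop 13) .nop
  (.seq (.pop 8) (.ite 8
    (.seq (.push 5 false) (.seq (.push 5 true) (Cmd.mv 10 4))) .nop
    (.seq (.pop 8) (.ite 8
      (.seq (.push 5 true) (.seq (.push 5 true) (Cmd.mv 10 4))) .nop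
      (.seq (.pop 8) (.ite 8
        (.seq (.ite 5 .nop .nop (.seq (.pop 5) (.pop 5))) (Cmd.mv 10 4)) .nop
        (.seq (.pop 8) (.ite 5 .nop (Cmd.mv 10 4)
          (.seq (.pop 5) (.seq (.ite 5 .nop (Cmd.mv 11 4) (Cmd.mv 12 4)) (.push 5 true)))))))))))

theorem execB_ok : execB.ok = true := by decide

/-- new content of the register of an instruction -/
def newv : Instr → List Bool → List Bool
  | .push _ b _, w => b :: w
  | .pop _ _, w => w.tail
  | .test _ _ _ _, w => w

/-- chosen target of an instruction -/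
def newt : Instr → List Bool → ℕ
  | .push _ _ n, _ => n
  | .pop _ n, _ => n
  | .test _ n0 n1 n2, w => match w with
    | [] => n0
    | false :: _ => n1
    | true :: _ => n2

theorem exec_eq (i : Instr) (s : St) :
    i.exec s = (newt i (s i.reg), update s i.reg (newv i (s i.reg))) := by
  cases i with
  | push r b n => rfl
  | pop r n => rfl
  | test r n0 n1 n2 => simp [Instr.exec, newt, newv, Instr.reg]; rfl

theorem exec_halt {u : UR} (ha : u.a = []) :
    execB.eval u.st = ({ u with g := u.g.tail } : UR).st := by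
  simp [execB, Cmd.eval, ha]

theorem un_reverse (n : ℕ) : (un n).reverse = un n := by simp

theorem exec_eval (i : Instr) {u : UR} {w rest : List Bool} (φ : ℕ → ℕ) (ha : u.a = un (opc i))
    (hx : u.x = un (φ (tg0 i))) (hy : u.y = un (φ (tg1 i))) (hz : u.z = un (φ (tg2 i)))
    (hm : u.m = enc w ++ rest) (hc : u.c = []) :
    ∃ x' y' z', x'.length ≤ u.x.length ∧ y'.length ≤ u.y.length ∧ z'.length ≤ u.z.length ∧
    execB.eval u.st = ({ u with
      a := []
      m := enc (newv i w) ++ rest
      c := un (φ (newt i w))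
      x := x'
      y := y'
      z := z' } : UR).st := by
  rcases i with ⟨r, _ | _, n⟩ | ⟨r, n⟩ | ⟨r, n0, n1, n2⟩
  · refine ⟨[], u.y, u.z, by simp, le_rfl, le_rfl, ?_⟩
    simp only [opc, un_succ, un_zero, tg0] at ha hx
    simp [execB, Cmd.eval, Cmd.eval_mv, ha, hx, hm, hc, newv, newt]
  · refine ⟨[], u.y, u.z, by simp, le_rfl, le_rfl, ?_⟩
    simp only [opc, un_succ, un_zero, tg0] at ha hx
    simp [execB, Cmd.eval, Cmd.eval_mv, ha, hx, hm, hc, newv, newt]
  · refine ⟨[], u.y, u.z, by simp, le_rfl, le_rfl, ?_⟩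
    simp only [opc, un_succ, un_zero, tg0] at ha hx
    rcases w with _ | ⟨b, w⟩
    · simp [execB, Cmd.eval, Cmd.eval_mv, ha, hx, hm, hc, newv, newt]
    · simp [execB, Cmd.eval, Cmd.eval_mv, ha, hx, hm, hc, newv, newt]
  · simp only [opc, un_succ, un_zero, tg0, tg1, tg2] at ha hx hy hz
    rcases w with _ | ⟨_ | _, w⟩
    · refine ⟨[], u.y, u.z, by simp, le_rfl, le_rfl, ?_⟩
      simp [execB, Cmd.eval, Cmd.eval_mv, ha, hx, hm, hc, newv, newt]
    · refine ⟨u.x, [], u.z, le_rfl, by simp, le_rfl, ?_⟩
      simp [execB, Cmd.eval, Cmd.eval_mv, ha, hx, hy, hm, hc, newv, newt]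
    · refine ⟨u.x, u.y, [], le_rfl, le_rfl, by simp, ?_⟩
      simp [execB, Cmd.eval, Cmd.eval_mv, ha, hx, hz, hm, hc, newv, newt]

theorem exec_LB {L : ℕ} {u : UR} (hx : u.x.length ≤ L) (hy : u.y.length ≤ L)
    (hz : u.z.length ≤ L) : execB.LB L u.st := by
  have k10 : ∀ v : UR, v.x = u.x → (Cmd.mv 10 4).LB L v.st :=
    fun v hv => Cmd.LB_mv (by decide) (by simpa [hv] using hx)
  have k11 : ∀ v : UR, v.y = u.y → (Cmd.mv 11 4).LB L v.st :=
    fun v hv => Cmd.LB_mv (by decide) (by simpa [hv] using hy)
  have k12 : ∀ v : UR, v.z = u.z → (Cmd.mv 12 4).LB L v.st :=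
    fun v hv => Cmd.LB_mv (by decide) (by simpa [hv] using hz)
  simp only [execB, Cmd.LB, Cmd.eval_pop, Cmd.eval_push, UR.st8, UR.up8, UR.up5, UR.st5]
  split
  · trivial
  · trivial
  refine ⟨trivial, ?_⟩
  split
  · exact ⟨trivial, trivial, k10 _ rfl⟩
  · trivial
  refine ⟨trivial, ?_⟩
  split
  · exact ⟨trivial, trivial, k10 _ rfl⟩
  · trivial
  refine ⟨trivial, ?_⟩
  split
  · refine ⟨?_, ?_⟩
    · split <;> simp
    · simp only [Cmd.eval, UR.st5, UR.up5]
      split <;> exact k10 _ rfl
  · trivial
  refine ⟨trivial, ?_⟩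
  split
  · trivial
  · exact k10 _ rfl
  refine ⟨trivial, ?_, trivial⟩
  split
  · trivial
  · exact k11 _ rfl
  · exact k12 _ rfl

end Pool.Agent.Helper48
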