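import Pool.Agent.Helper48.Univ2

/-!
The universal machine, third part: the interpreter loop.
-/

namespace Pool.Agent.Helper48

open Pool.Agent.Helper72 Function

/-! ### the code of a flat program -/

/-- targets as block numbers, clamped -/
def phi (N n : ℕ) : ℕ := 5 * min n N

/-- the five fields of an instruction -/
def fld (N : ℕ) (i : Instr) : List ℕ :=
  [opc i, i.reg, phi N (tg0 i), phi N (tg1 i), phi N (tg2 i)]

/-- all fields of a program, followed by a halting instruction -/
def flds (P : List Instr) : List ℕ := P.flatMap (fld P.length) ++ [0, 0, 0, 0, 0]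

/-- the binary code of a program -/
def prog (P : List Instr) : List Bool := ubs (flds P)

/-- memory of the universal machine -/
def mem (K : ℕ) (s : St) : List Bool := encs ((List.range K).map s)

theorem flatMap_fld_length (N : ℕ) (P : List Instr) : (P.flatMap (fld N)).length = 5 * P.length := by
  induction P with
  | nil => rfl
  | cons i P ih => simp [ih, fld]; omega

theorem flatMap_split {f : Instr → List ℕ} {P : List Instr} {pc : ℕ} (h : pc < P.length) :
    P.flatMap f = (P.take pc).flatMap f ++ (f P[pc] ++ (P.drop (pc + 1)).flatMap f) := by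
  have : P = P.take pc ++ P[pc] :: P.drop (pc + 1) := by
    rw [List.cons_getElem_drop_succ, List.take_append_drop]
  conv_lhs => rw [this]
  rw [List.flatMap_append, List.flatMap_cons]

theorem flds_split {P : List Instr} {pc : ℕ} (h : pc < P.length) :
    ∃ A B : List ℕ, A.length = phi P.length pc ∧ flds P = A ++ (fld P.length P[pc] ++ B) := by
  refine ⟨(P.take pc).flatMap (fld P.length),
    (P.drop (pc + 1)).flatMap (fld P.length) ++ [0, 0, 0, 0, 0], ?_, ?_⟩
  · rw [flatMap_fld_length, phi, List.length_take]
  · have := flatMap_split (f := fld P.length) h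
    rw [flds, this]
    simp only [List.append_assoc]

theorem mem_split {K r : ℕ} (h : r < K) (s : St) : ∃ A B : List (List Bool), A.length = r ∧
    ∀ v, mem K (update s r v) = encs A ++ (enc v ++ encs B) := by
  obtain ⟨d, rfl⟩ : ∃ d, K = r + 1 + d := ⟨K - (r + 1), by omega⟩
  refine ⟨(List.range r).map s, (List.range d).map (fun j => s (r + 1 + j)), by simp, fun v => ?_⟩
  rw [mem, List.range_add, List.range_succ]
  simp only [List.map_append, List.map_cons, List.map_nil, update_self, encs_append, encs_cons,
    encs_nil, List.append_nil, List.map_map, List.append_assoc]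
  congr 2
  · apply List.map_congr_left
    intro j hj
    rw [update_of_ne]
    have := List.mem_range.1 hj
    omega
  · refine congrArg encs (List.map_congr_left ?_)
    intro j hj
    simp only [comp_apply]
    rw [update_of_ne]
    omega

/-- encoded configuration -/
def ecfg (P : List Instr) (K : ℕ) (c : ℕ × St) : UR where
  p := prog P
  c := un (phi P.length c.1)
  m := mem K c.2
  g := [true]

/-! ### one step -/

def seqs : List WCmd → WCmd
  | [] => .base .nop
  | [w] => w
  | w :: l => .seq w (seqs l)

/-- fetch and decode -/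
def fetchW : WCmd :=
  .seq skipW (.seq (rdW 8) (.seq (rdW 9) (.seq (rdW 10) (.seq (rdW 11) (.seq (rdW 12)
    (.base (Cmd.mv 3 2)))))))

def clrB : Cmd := .seq (Cmd.clear 10) (.seq (Cmd.clear 11) (Cmd.clear 12))

def bodyW : WCmd :=
  .seq fetchW (.seq walkW (.seq (.base execB) (.seq (.base (Cmd.mv 6 5)) (.base clrB))))

theorem ubs_length_pos (l : List ℕ) (n : ℕ) (h : n ∈ l) : n + 1 ≤ (ubs l).length := by
  induction l with
  | nil => simp at h
  | cons k l ih =>
    simp only [ubs_cons, List.length_append, List.length_cons, List.length_replicate]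
    rcases List.mem_cons.1 h with rfl | h
    · omega
    · have := ih h; omega

theorem rd8 (n : ℕ) {u : UR} {rest : List Bool} (hf : u.f = []) (ha : u.a = [])
    (hp : u.p = un n ++ false :: rest) :
    Does (rdW 8) u.st (20 * (n + 1) + 2) ({ u with
      p := rest
      q := (ubs [n]).reverse ++ u.q
      a := un n } : UR).st := by
  have := rd_does (X := 8) (by decide) n (s := u.st) (rest := rest) hf hp
  simpa [ha] using this

theorem rd9 (n : ℕ) {u : UR} {rest : List Bool} (hf : u.f = []) (ha : u.r = [])
    (hp : u.p = un n ++ false :: rest) :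
    Does (rdW 9) u.st (20 * (n + 1) + 2) ({ u with
      p := rest
      q := (ubs [n]).reverse ++ u.q
      r := un n } : UR).st := by
  have := rd_does (X := 9) (by decide) n (s := u.st) (rest := rest) hf hp
  simpa [ha] using this

theorem rd10 (n : ℕ) {u : UR} {rest : List Bool} (hf : u.f = []) (ha : u.x = [])
    (hp : u.p = un n ++ false :: rest) :
    Does (rdW 10) u.st (20 * (n + 1) + 2) ({ u with
      p := rest
      q := (ubs [n]).reverse ++ u.q
      x := un n } : UR).st := by
  have := rd_does (X := 10) (by decide) n (s := u.st) (rest := rest) hf hp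
  simpa [ha] using this

theorem rd11 (n : ℕ) {u : UR} {rest : List Bool} (hf : u.f = []) (ha : u.y = [])
    (hp : u.p = un n ++ false :: rest) :
    Does (rdW 11) u.st (20 * (n + 1) + 2) ({ u with
      p := rest
      q := (ubs [n]).reverse ++ u.q
      y := un n } : UR).st := by
  have := rd_does (X := 11) (by decide) n (s := u.st) (rest := rest) hf hp
  simpa [ha] using this

theorem rd12 (n : ℕ) {u : UR} {rest : List Bool} (hf : u.f = []) (ha : u.z = [])
    (hp : u.p = un n ++ false :: rest) :
    Does (rdW 12) u.st (20 * (n + 1) + 2) ({ u with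
      p := rest
      q := (ubs [n]).reverse ++ u.q
      z := un n } : UR).st := by
  have := rd_does (X := 12) (by decide) n (s := u.st) (rest := rest) hf hp
  simpa [ha] using this

theorem fetch_does (A B : List ℕ) (n0 n1 n2 n3 n4 : ℕ) {u : UR} {L : ℕ}
    (hp : u.p = ubs (A ++ ([n0, n1, n2, n3, n4] ++ B))) (hc : u.c = un A.length)
    (hq : u.q = []) (hf : u.f = []) (ha : u.a = []) (hr : u.r = []) (hx : u.x = [])
    (hy : u.y = []) (hz : u.z = []) (hL : u.p.length ≤ L) :
    Does fetchW u.st (120 * L + 100 + (Cmd.mv 3 2).tb L) ({ u with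
      c := []
      a := un n0
      r := un n1
      x := un n2
      y := un n3
      z := un n4 } : UR).st := by
  have hlen := hL
  rw [hp] at hlen
  simp only [ubs_append, List.length_append, ubs_cons, ubs_nil, List.length_cons, List.length_nil,
    List.length_replicate] at hlen
  have h0 := skip_does A (u := u) hc (by rw [hp, ubs_append])
  have h1 := rd8 n0 (u := { u with
    c := []
    p := ubs ([n0, n1, n2, n3, n4] ++ B)
    q := (ubs A).reverse ++ u.q }) (rest := ubs ([n1, n2, n3, n4] ++ B)) hf ha (by simp)
  have h2 := rd9 n1 (u := { u with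
    c := []
    p := ubs ([n1, n2, n3, n4] ++ B)
    q := (ubs [n0]).reverse ++ ((ubs A).reverse ++ u.q)
    a := un n0 }) (rest := ubs ([n2, n3, n4] ++ B)) hf hr (by simp)
  have h3 := rd10 n2 (u := { u with
    c := []
    p := ubs ([n2, n3, n4] ++ B)
    q := (ubs [n1]).reverse ++ ((ubs [n0]).reverse ++ ((ubs A).reverse ++ u.q))
    a := un n0
    r := un n1 }) (rest := ubs ([n3, n4] ++ B)) hf hx (by simp)
  have h4 := rd11 n3 (u := { u with
    c := []
    p := ubs ([n3, n4] ++ B)
    q := (ubs [n2]).reverse ++ ((ubs [n1]).reverse ++ ((ubs [n0]).reverse ++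
      ((ubs A).reverse ++ u.q)))
    a := un n0
    r := un n1
    x := un n2 }) (rest := ubs ([n4] ++ B)) hf hy (by simp)
  have h5 := rd12 n4 (u := { u with
    c := []
    p := ubs ([n4] ++ B)
    q := (ubs [n3]).reverse ++ ((ubs [n2]).reverse ++ ((ubs [n1]).reverse ++
      ((ubs [n0]).reverse ++ ((ubs A).reverse ++ u.q))))
    a := un n0
    r := un n1
    x := un n2
    y := un n3 }) (rest := ubs B) hf hz (by simp)
  have h6 := Does.base (c := Cmd.mv 3 2) (L := L) (s := ({ u with
    c := []
    p := ubs B
    q := (ubs [n4]).reverse ++ ((ubs [n3]).reverse ++ ((ubs [n2]).reverse ++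
      ((ubs [n1]).reverse ++ ((ubs [n0]).reverse ++ ((ubs A).reverse ++ u.q)))))
    a := un n0
    r := un n1
    x := un n2
    y := un n3
    z := un n4 } : UR).st) (by decide) (Cmd.LB_mv (by decide) (by
      simp [hq]; omega))
  have e : (Cmd.mv 3 2).eval ({ u with
    c := []
    p := ubs B
    q := (ubs [n4]).reverse ++ ((ubs [n3]).reverse ++ ((ubs [n2]).reverse ++
      ((ubs [n1]).reverse ++ ((ubs [n0]).reverse ++ ((ubs A).reverse ++ u.q)))))
    a := un n0
    r := un n1
    x := un n2
    y := un n3
    z := un n4 } : UR).st = ({ u with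
      c := []
      a := un n0
      r := un n1
      x := un n2
      y := un n3
      z := un n4 } : UR).st := by
    rw [Cmd.eval_mv (by decide)]
    simp only [UR.up3, UR.up2, UR.st3, UR.st2]
    congr 1
    simp [hq, hp, ubs_append]
  rw [e] at h6
  have h := h0.seq (h1.seq (h2.seq (h3.seq (h4.seq (h5.seq h6)))))
  refine Does.mono (T := _) ?_ (show (20 * (ubs A).length + 1) + ((20 * (n0 + 1) + 2) +
    ((20 * (n1 + 1) + 2) + ((20 * (n2 + 1) + 2) + ((20 * (n3 + 1) + 2) +
    ((20 * (n4 + 1) + 2) + (Cmd.mv 3 2).tb L))))) ≤ _ by omega)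
  exact h

theorem body_step {P : List Instr} {K L : ℕ} {c : ℕ × St} (hc : c.1 < P.length)
    (hreg : ∀ i ∈ P, i.reg < K) (hL1 : (prog P).length ≤ L) (hL2 : (mem K c.2).length ≤ L) :
    Does bodyW (ecfg P K c).st (200 * L + 200 + (Cmd.mv 3 2).tb L + execB.tb L
      + (Cmd.mv 6 5).tb L + clrB.tb L) (ecfg P K (fstep P c)).st := by
  obtain ⟨pc, s⟩ := c
  simp only at hc hL2
  have hget : P[pc]? = some P[pc] := List.getElem?_eq_getElem hc
  have hi : P[pc].reg < K := hreg _ (List.getElem_mem hc)
  obtain ⟨A, B, hA, hP⟩ := flds_split hc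
  rw [fstep_some hget]
  generalize P[pc] = i at hi hP
  obtain ⟨C, D, hC, hM⟩ := mem_split hi s
  have hmem : mem K s = encs C ++ (enc (s i.reg) ++ encs D) := by
    have := hM (s i.reg)
    rwa [update_eq_self] at this
  have hfl : ∀ n ∈ fld P.length i, n ≤ L := by
    intro n hn
    have h1 := ubs_length_pos (flds P) n (by rw [hP]; simp [hn])
    have : (ubs (flds P)).length ≤ L := hL1
    omega
  have hCL : (encs C).length ≤ L := by
    rw [hmem] at hL2
    simp only [List.length_append] at hL2
    omega
  have h1 := fetch_does A B (opc i) i.reg (phi P.length (tg0 i)) (phi P.length (tg1 i))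
    (phi P.length (tg2 i)) (u := ecfg P K (pc, s)) (L := L)
    (show prog P = _ by rw [prog, hP]; rfl) (by rw [hA]; rfl) rfl rfl rfl rfl rfl rfl rfl hL1
  have h2 := walk_does C (u := { ecfg P K (pc, s) with
    c := []
    a := un (opc i)
    r := un i.reg
    x := un (phi P.length (tg0 i))
    y := un (phi P.length (tg1 i))
    z := un (phi P.length (tg2 i)) }) (rest := enc (s i.reg) ++ encs D) (by rw [hC]) hmem
  obtain ⟨x', y', z', hx', hy', hz', he⟩ := exec_eval i (u := { ecfg P K (pc, s) with
    c := []
    m := enc (s i.reg) ++ encs D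
    n := (encs C).reverse ++ []
    a := un (opc i)
    r := []
    x := un (phi P.length (tg0 i))
    y := un (phi P.length (tg1 i))
    z := un (phi P.length (tg2 i)) }) (w := s i.reg) (rest := encs D) (phi P.length)
    rfl rfl rfl rfl rfl rfl
  have bx : (un (phi P.length (tg0 i))).length ≤ L := by
    simpa using hfl _ (by simp [fld])
  have by' : (un (phi P.length (tg1 i))).length ≤ L := by
    simpa using hfl _ (by simp [fld])
  have bz : (un (phi P.length (tg2 i))).length ≤ L := by
    simpa using hfl _ (by simp [fld])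
  have h3 := Does.base execB_ok (exec_LB (L := L) (u := { ecfg P K (pc, s) with
    c := []
    m := enc (s i.reg) ++ encs D
    n := (encs C).reverse ++ []
    a := un (opc i)
    r := []
    x := un (phi P.length (tg0 i))
    y := un (phi P.length (tg1 i))
    z := un (phi P.length (tg2 i)) }) bx by' bz)
  rw [he] at h3
  have h4 := Does.base (c := Cmd.mv 6 5) (L := L) (s := ({ ecfg P K (pc, s) with
    c := un (phi P.length (newt i (s i.reg)))
    m := enc (newv i (s i.reg)) ++ encs D
    n := (encs C).reverse ++ []
    a := []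
    r := []
    x := x'
    y := y'
    z := z' } : UR).st) (by decide) (Cmd.LB_mv (by decide) (by simpa using hCL))
  have e4 : (Cmd.mv 6 5).eval ({ ecfg P K (pc, s) with
    c := un (phi P.length (newt i (s i.reg)))
    m := enc (newv i (s i.reg)) ++ encs D
    n := (encs C).reverse ++ []
    a := []
    r := []
    x := x'
    y := y'
    z := z' } : UR).st = ({ ecfg P K (pc, s) with
    c := un (phi P.length (newt i (s i.reg)))
    m := mem K (update s i.reg (newv i (s i.reg)))
    n := []
    a := []
    r := []
    x := x'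
    y := y'
    z := z' } : UR).st := by
    rw [Cmd.eval_mv (by decide), hM]
    simp
  rw [e4] at h4
  have h5 := Does.base (c := clrB) (L := L) (s := ({ ecfg P K (pc, s) with
    c := un (phi P.length (newt i (s i.reg)))
    m := mem K (update s i.reg (newv i (s i.reg)))
    n := []
    a := []
    r := []
    x := x'
    y := y'
    z := z' } : UR).st) (by decide) (by
      refine ⟨Cmd.LB_clear (hx'.trans bx), Cmd.LB_clear ?_, Cmd.LB_clear ?_⟩
      · simpa using hy'.trans by'
      · simpa using hz'.trans bz)
  have e5 : clrB.eval ({ ecfg P K (pc, s) with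
    c := un (phi P.length (newt i (s i.reg)))
    m := mem K (update s i.reg (newv i (s i.reg)))
    n := []
    a := []
    r := []
    x := x'
    y := y'
    z := z' } : UR).st = (ecfg P K (i.exec s)).st := by
    rw [exec_eq]
    simp [clrB, ecfg]
  rw [e5] at h5
  exact Does.mono (h1.seq (h2.seq (h3.seq (h4.seq h5)))) (by omega)

theorem body_halt {P : List Instr} {K L : ℕ} {c : ℕ × St} (hc : P.length ≤ c.1)
    (hL1 : (prog P).length ≤ L) :
    Does bodyW (ecfg P K c).st (200 * L + 200 + (Cmd.mv 3 2).tb L + execB.tb L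
      + (Cmd.mv 6 5).tb L + clrB.tb L) ({ ecfg P K c with c := [], g := [] } : UR).st := by
  obtain ⟨pc, s⟩ := c
  simp only at hc
  have h1 := fetch_does (P.flatMap (fld P.length)) [] 0 0 0 0 0 (u := ecfg P K (pc, s)) (L := L)
    rfl (by rw [flatMap_fld_length]; simp [ecfg, phi, min_eq_right hc]) rfl rfl rfl rfl rfl rfl rfl
    hL1
  have h2 := walk_does [] (u := { ecfg P K (pc, s) with
    c := []
    a := un 0
    r := un 0
    x := un 0
    y := un 0
    z := un 0 }) (rest := mem K s) rfl rfl
  have h3 := Does.base execB_ok (exec_LB (L := L) (u := { ecfg P K (pc, s) with c := [] })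
    (Nat.zero_le _) (Nat.zero_le _) (Nat.zero_le _))
  rw [exec_halt rfl] at h3
  have h4 := Does.base (c := Cmd.mv 6 5) (L := L)
    (s := ({ ecfg P K (pc, s) with c := [], g := [] } : UR).st) (by decide)
    (Cmd.LB_mv (by decide) (by simp [ecfg]))
  have e4 : (Cmd.mv 6 5).eval ({ ecfg P K (pc, s) with c := [], g := [] } : UR).st
      = ({ ecfg P K (pc, s) with c := [], g := [] } : UR).st := by
    rw [Cmd.eval_mv (by decide)]
    simp [ecfg]
  rw [e4] at h4
  have h5 := Does.base (c := clrB) (L := L)
    (s := ({ ecfg P K (pc, s) with c := [], g := [] } : UR).st) (by decide)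
    ⟨Cmd.LB_clear (by simp [ecfg]), Cmd.LB_clear (by simp [ecfg]), Cmd.LB_clear (by simp [ecfg])⟩
  have e5 : clrB.eval ({ ecfg P K (pc, s) with c := [], g := [] } : UR).st
      = ({ ecfg P K (pc, s) with c := [], g := [] } : UR).st := by
    simp [clrB, ecfg]
  rw [e5] at h5
  exact Does.mono (h1.seq (h2.seq (h3.seq (h4.seq h5)))) (by simp; omega)

/-! ### the main loop -/

def bodyT (L : ℕ) : ℕ := 200 * L + 200 + (Cmd.mv 3 2).tb L + execB.tb L
      + (Cmd.mv 6 5).tb L + clrB.tb L

theorem bodyT_mono : Monotone bodyT := by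
  intro a b h
  have h1 := (Cmd.mv 3 2).tb_mono h
  have h2 := execB.tb_mono h
  have h3 := (Cmd.mv 6 5).tb_mono h
  have h4 := clrB.tb_mono h
  simp only [bodyT]
  omega

theorem bodyT_PB : PB bodyT :=
  ((((((PB.const 200).mul PB.id).add (PB.const 200)).add (PB.tb _)).add (PB.tb _)).add
    (PB.tb _)).add (PB.tb _)

def mainW : WCmd := .wh 13 (.base .nop) bodyW

theorem mem_len_step {P : List Instr} {K : ℕ} (hreg : ∀ i ∈ P, i.reg < K) (c : ℕ × St) :
    (mem K (fstep P c).2).length ≤ (mem K c.2).length + 2 := by
  obtain ⟨pc, s⟩ := c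
  unfold fstep
  simp only
  rcases h : P[pc]? with _ | i
  · simp
  · have hi : i.reg < K := hreg i (List.mem_of_getElem? h)
    obtain ⟨C, D, hC, hM⟩ := mem_split hi s
    have h0 := hM (s i.reg)
    rw [update_eq_self] at h0
    simp only [exec_eq, hM, h0, List.length_append, enc_length]
    have : (newv i (s i.reg)).length ≤ (s i.reg).length + 1 := by
      cases i <;> simp [newv]; omega
    omega

theorem main_does {P : List Instr} {K : ℕ} (hreg : ∀ i ∈ P, i.reg < K) (T : ℕ) :
    ∀ (c : ℕ × St), P.length ≤ ((fstep P)^[T] c).1 → ∀ L, (prog P).length ≤ L →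
      (mem K c.2).length + 2 * T ≤ L →
      Does mainW (ecfg P K c).st ((T + 1) * (bodyT L + 1) + 1)
        ({ ecfg P K ((fstep P)^[T] c) with c := [], g := [] } : UR).st := by
  have base : ∀ (c : ℕ × St), P.length ≤ c.1 → ∀ L, (prog P).length ≤ L →
      Does mainW (ecfg P K c).st (bodyT L + 2)
        ({ ecfg P K c with c := [], g := [] } : UR).st := by
    intro c hc L hL
    exact (Does.wh2 (l := []) rfl (body_halt hc hL) (Does.wh0 rfl)).mono
      (by simp only [bodyT]; omega)
  induction T with
  | zero =>
    intro c hc L hL _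
    simp only [iterate_zero, id_eq] at hc ⊢
    exact (base c hc L hL).mono (by omega)
  | succ T ih =>
    intro c hc L hL hL2
    by_cases h : P.length ≤ c.1
    · rw [fstep_fixed h]
      exact (base c h L hL).mono (by nlinarith)
    · push Not at h
      rw [iterate_succ_apply] at hc ⊢
      have h1 := mem_len_step hreg c
      have h2 := ih (fstep P c) hc L hL (by omega)
      refine (Does.wh2 (l := []) rfl (body_step h hreg hL (by omega)) h2).mono ?_
      have : (T + 1 + 1) * (bodyT L + 1) = (T + 1) * (bodyT L + 1) + (bodyT L + 1) := by ring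
      rw [this]
      simp only [bodyT]; omega

end Pool.Agent.Helper48
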