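import Pool.Agent.Helper48.Univ3
import Pool.Agent.Helper72.Defs

/-!
The universal machine, fourth part: initialization, output, and the machine itself.
-/

namespace Pool.Agent.Helper48

open Pool.Agent.Helper72 Function Turing

/-! ### decoding a self-delimited word into register 3 (reversed) -/

def decB (X : ℕ) : Cmd := .ite X (.pop 7) (.seq (.pop X) (.pop 7))
  (.seq (.pop X) (.ite X .nop (.seq (.pop X) (.push 3 false)) (.seq (.pop X) (.push 3 true))))

def decW (X : ℕ) : WCmd := .seq (.base (.push 7 true)) (.wh 7 (.base .nop) (.base (decB X)))

theorem dec_aux {X : ℕ} (h3 : X ≠ 3) (h7 : X ≠ 7) (w : List Bool) {s : St} {rest : List Bool}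
    (hf : s 7 = [true]) (hp : s X = enc w ++ rest) :
    Does (.wh 7 (.base .nop) (.base (decB X))) s (20 * (w.length + 1) + 1)
      (update (update (update s X rest) 3 (w.reverse ++ s 3)) 7 []) := by
  induction w generalizing s with
  | nil =>
    simp only [enc_nil, List.singleton_append] at hp
    refine (Does.wh2 hf (Does.base (L := 0) (by rfl) (by simp [decB, Cmd.LB, hp]))
      (T' := 1) ?_).mono ?_
    · have : (decB X).eval s = (update (update (update s X rest) 3
          ([].reverse ++ s 3)) 7 []) := by
        simp only [decB, Cmd.eval, hp]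
        funext r
        simp only [update_apply]
        split_ifs <;> simp_all
      rw [this]
      exact Does.wh0 (by simp)
    · simp [decB, Cmd.tb]
  | cons b w ih =>
    simp only [enc_cons, List.cons_append] at hp
    refine (Does.wh2 hf (Does.base (L := 0) (by rfl) (by cases b <;> simp [decB, Cmd.LB, hp]))
      (T' := 20 * (w.length + 1) + 1) ?_).mono ?_
    · have e : (decB X).eval s = (update (update s X (enc w ++ rest)) 3 (b :: s 3)) := by
        cases b
        · simp only [decB, Cmd.eval, hp, update_self, List.tail_cons, update_idem]
          funext r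
          simp only [update_apply]
          split_ifs <;> simp_all
        · simp only [decB, Cmd.eval, hp, update_self, List.tail_cons, update_idem]
          funext r
          simp only [update_apply]
          split_ifs <;> simp_all
      rw [e]
      have := ih (s := (update (update s X (enc w ++ rest)) 3 (b :: s 3)))
        (by simp [hf, h7.symm]) (by simp [h3])
      convert this using 1
      funext r
      simp only [update_apply, List.reverse_cons, List.append_assoc, List.singleton_append]
      split_ifs <;> simp_all
    · simp [decB, Cmd.tb]; omega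

theorem dec_does {X : ℕ} (h3 : X ≠ 3) (h7 : X ≠ 7) (w : List Bool) {s : St} {rest : List Bool}
    (hf : s 7 = []) (hp : s X = enc w ++ rest) :
    Does (decW X) s (20 * (w.length + 1) + 2)
      (update (update s X rest) 3 (w.reverse ++ s 3)) := by
  have h := (Does.base (c := .push 7 true) (s := s) (L := 0) rfl trivial).seq
    (dec_aux h3 h7 w (s := Cmd.eval (.push 7 true) s) (rest := rest)
      (by simp [hf]) (by simp [hp, h7]))
  refine Does.mono (T := (Cmd.push 7 true).tb 0 + (20 * (w.length + 1) + 1)) ?_
    (by simp [Cmd.tb]; omega)
  have e : (update (update s X rest) 3 (w.reverse ++ s 3))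
      = (update (update (update ((Cmd.push 7 true).eval s) X rest) 3
        (w.reverse ++ (Cmd.push 7 true).eval s 3)) 7 []) := by
    funext r
    simp only [Cmd.eval_push, update_apply]
    split_ifs <;> simp_all
  rw [e]; exact h

/-! ### initialization -/

/-- move register 3 to register 2 and push as many `false` on register 5 -/
def in1B : Cmd := .loop 3 (.seq (.push 2 false) (.push 5 false)) (.seq (.push 2 true) (.push 5 false))

theorem in1_loop (p : Bool → St → Prop) (hp : ∀ b s, p b s) : ∀ (l : List Bool) (u : UR),
    loopEval (fun x => if x then Cmd.eval (.seq (.push 2 true) (.push 5 false))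
        else Cmd.eval (.seq (.push 2 false) (.push 5 false))) 3 l ({ u with q := l } : UR).st
      = ({ u with
          p := l.reverse ++ u.p
          q := []
          m := List.replicate l.length false ++ u.m } : UR).st ∧
    loopLB (fun x => if x then Cmd.eval (.seq (.push 2 true) (.push 5 false))
        else Cmd.eval (.seq (.push 2 false) (.push 5 false))) p 3 l ({ u with q := l } : UR).st
  | [], u => by
    constructor
    · simp [loopEval]
    · trivial
  | x :: l, u => by
    have hb : (if x = true then Cmd.eval (.seq (.push 2 true) (.push 5 false))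
        else Cmd.eval (.seq (.push 2 false) (.push 5 false)))
        (update ({ u with q := x :: l } : UR).st 3 l)
        = ({ ({ u with p := x :: u.p, m := false :: u.m } : UR) with q := l } : UR).st := by
      cases x <;> simp
    obtain ⟨h1, h2⟩ := in1_loop p hp l { u with p := x :: u.p, m := false :: u.m }
    constructor
    · rw [loopEval, hb, h1]
      congr 1
      simp [List.replicate_succ', List.append_assoc]
    · refine ⟨hp _ _, ?_⟩
      beta_reduce
      rw [hb]; exact h2

theorem in1_does {u : UR} {L : ℕ} (hL : u.q.length ≤ L) :
    Does (.base in1B) u.st (in1B.tb L) ({ u with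
      p := u.q.reverse ++ u.p
      q := []
      m := List.replicate u.q.length false ++ u.m } : UR).st := by
  have h := in1_loop _ (fun b s => by
    show (if b then Cmd.LB L (.seq (.push 2 true) (.push 5 false))
      else Cmd.LB L (.seq (.push 2 false) (.push 5 false))) s
    cases b <;> exact ⟨trivial, trivial⟩) u.q u
  rw [← h.1]
  exact Does.base (c := in1B) (L := L) (s := u.st) (by decide) ⟨hL, h.2⟩

/-- encode register 3 (reversed) on register 5 -/
def in2B : Cmd := .loop 3 (.seq (.push 5 false) (.push 5 true)) (.seq (.push 5 true) (.push 5 true))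

theorem in2_loop (p : Bool → St → Prop) (hp : ∀ b s, p b s) : ∀ (l : List Bool) (u : UR),
    loopEval (fun x => if x then Cmd.eval (.seq (.push 5 true) (.push 5 true))
        else Cmd.eval (.seq (.push 5 false) (.push 5 true))) 3 l ({ u with q := l } : UR).st
      = ({ u with
          q := []
          m := l.reverse.flatMap (fun b => [true, b]) ++ u.m } : UR).st ∧
    loopLB (fun x => if x then Cmd.eval (.seq (.push 5 true) (.push 5 true))
        else Cmd.eval (.seq (.push 5 false) (.push 5 true))) p 3 l ({ u with q := l } : UR).st
  | [], u => by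
    constructor
    · simp [loopEval]
    · trivial
  | x :: l, u => by
    have hb : (if x = true then Cmd.eval (.seq (.push 5 true) (.push 5 true))
        else Cmd.eval (.seq (.push 5 false) (.push 5 true)))
        (update ({ u with q := x :: l } : UR).st 3 l)
        = ({ ({ u with m := true :: x :: u.m } : UR) with q := l } : UR).st := by
      cases x <;> simp
    obtain ⟨h1, h2⟩ := in2_loop p hp l { u with m := true :: x :: u.m }
    constructor
    · rw [loopEval, hb, h1]
      congr 1
      simp
    · refine ⟨hp _ _, ?_⟩
      beta_reduce
      rw [hb]; exact h2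

theorem in2_does {u : UR} {L : ℕ} (hL : u.q.length ≤ L) :
    Does (.base in2B) u.st (in2B.tb L) ({ u with
      q := []
      m := u.q.reverse.flatMap (fun b => [true, b]) ++ u.m } : UR).st := by
  have h := in2_loop _ (fun b s => by
    show (if b then Cmd.LB L (.seq (.push 5 true) (.push 5 true))
      else Cmd.LB L (.seq (.push 5 false) (.push 5 true))) s
    cases b <;> exact ⟨trivial, trivial⟩) u.q u
  rw [← h.1]
  exact Does.base (c := in2B) (L := L) (s := u.st) (by decide) ⟨hL, h.2⟩

def initW : WCmd :=
  .seq (decW 0) (.seq (.base in1B) (.seq (.base (.seq (.push 5 false) (Cmd.mv 0 3)))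
    (.seq (.base in2B) (.base (.push 13 true)))))

theorem mem_init (K : ℕ) (y : List Bool) :
    mem (K + 1) (initSt 0 y) = enc y ++ List.replicate K false := by
  rw [mem, List.range_succ_eq_map]
  simp only [List.map_cons, List.map_map, encs_cons]
  congr 1
  have : (initSt 0 y ∘ Nat.succ) = fun _ => [] := by
    funext j; simp [initSt]
  rw [this, List.map_const', List.length_range]
  induction K with
  | zero => rfl
  | succ K ih => rw [List.replicate_succ, encs_cons, ih]; rfl

theorem init_does (P : List Instr) (y : List Bool) {L : ℕ} (hL1 : (prog P).length ≤ L)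
    (hL2 : y.length ≤ L) :
    Does initW (initSt 0 (enc (prog P) ++ y)) (20 * (L + 1) + 10 + in1B.tb L + in2B.tb L
      + (Cmd.mv 0 3).tb L) (ecfg P ((prog P).length + 1) (0, initSt 0 y)).st := by
  have e0 : initSt 0 (enc (prog P) ++ y) = ({ i := enc (prog P) ++ y } : UR).st := by
    funext k
    rcases k with _ | _ | _ | _ | _ | _ | _ | _ | _ | _ | _ | _ | _ | _ | k <;>
      simp [initSt, UR.st]
  rw [e0]
  have h1 := dec_does (X := 0) (by decide) (by decide) (prog P)
    (s := ({ i := enc (prog P) ++ y } : UR).st) (rest := y) rfl rfl
  have e1 : (update (update ({ i := enc (prog P) ++ y } : UR).st 0 y) 3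
      ((prog P).reverse ++ ({ i := enc (prog P) ++ y } : UR).st 3))
      = ({ i := y, q := (prog P).reverse } : UR).st := by simp
  rw [e1] at h1
  have h2 := in1_does (u := { i := y, q := (prog P).reverse }) (L := L) (by simpa using hL1)
  have e2 : ({ ({ i := y, q := (prog P).reverse } : UR) with
      p := (prog P).reverse.reverse ++ []
      q := []
      m := List.replicate (prog P).reverse.length false ++ [] } : UR)
      = { i := y, p := prog P, m := List.replicate (prog P).length false } := by
    simp
  have h2' : Does (.base in1B) ({ i := y, q := (prog P).reverse } : UR).st (in1B.tb L)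
      ({ i := y, p := prog P, m := List.replicate (prog P).length false } : UR).st := by
    rw [← e2]; exact h2
  have h3 := Does.base (c := .seq (.push 5 false) (Cmd.mv 0 3)) (L := L)
    (s := ({ i := y, p := prog P, m := List.replicate (prog P).length false } : UR).st)
    (by decide) ⟨trivial, Cmd.LB_mv (by decide) (by simpa using hL2)⟩
  have e3 : (Cmd.seq (.push 5 false) (Cmd.mv 0 3)).eval
      ({ i := y, p := prog P, m := List.replicate (prog P).length false } : UR).st
      = ({
           p := prog P
           q := y.reverse
           m := false :: List.replicate (prog P).length false } : UR).st := by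
    rw [Cmd.eval_seq, Cmd.eval_mv (by decide)]
    simp
  rw [e3] at h3
  have h4 := in2_does (u := {
      p := prog P
      q := y.reverse
      m := false :: List.replicate (prog P).length false }) (L := L) (by simpa using hL2)
  have h5 := Does.base (c := .push 13 true) (L := L) (s := ({
      p := prog P
      q := []
      m := y.reverse.reverse.flatMap (fun b => [true, b]) ++
        (false :: List.replicate (prog P).length false) } : UR).st) rfl trivial
  have e5 : (Cmd.push 13 true).eval ({
      p := prog P
      q := []
      m := y.reverse.reverse.flatMap (fun b => [true, b]) ++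
        (false :: List.replicate (prog P).length false) } : UR).st
      = (ecfg P ((prog P).length + 1) (0, initSt 0 y)).st := by
    simp [ecfg, mem_init, enc, phi]
  rw [e5] at h5
  refine Does.mono (h1.seq (h2'.seq (h3.seq (h4.seq h5)))) ?_
  simp only [Cmd.tb]
  omega

/-! ### output -/

def finW : WCmd :=
  .seq (decW 5) (.seq (.base (Cmd.mv 3 1)) (.base (.seq (Cmd.clear 2) (Cmd.clear 5))))

theorem fin_does (P : List Instr) (K : ℕ) (c : ℕ × St) {L : ℕ} (hL1 : (prog P).length ≤ L)
    (hL2 : (mem (K + 1) c.2).length ≤ L) :
    Does finW ({ ecfg P (K + 1) c with c := [], g := [] } : UR).st (20 * (L + 1) + 10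
      + (Cmd.mv 3 1).tb L + (Cmd.seq (Cmd.clear 2) (Cmd.clear 5)).tb L)
      ({ o := c.2 0 } : UR).st := by
  obtain ⟨pc, s⟩ := c
  simp only at hL2
  have hm : mem (K + 1) s = enc (s 0) ++ encs ((List.range K).map (fun j => s (j + 1))) := by
    rw [mem, List.range_succ_eq_map]
    simp only [List.map_cons, List.map_map, encs_cons]
    rfl
  have hlen := hL2
  rw [hm, List.length_append, enc_length] at hlen
  have h1 := dec_does (X := 5) (by decide) (by decide) (s 0)
    (s := ({ ecfg P (K + 1) (pc, s) with c := [], g := [] } : UR).st)
    (rest := encs ((List.range K).map (fun j => s (j + 1)))) rfl hm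
  have e1 : (update (update ({ ecfg P (K + 1) (pc, s) with c := [], g := [] } : UR).st 5
      (encs ((List.range K).map (fun j => s (j + 1))))) 3
      ((s 0).reverse ++ ({ ecfg P (K + 1) (pc, s) with c := [], g := [] } : UR).st 3))
      = ({ p := prog P
           q := (s 0).reverse
           m := encs ((List.range K).map (fun j => s (j + 1))) } : UR).st := by
    simp [ecfg]
  rw [e1] at h1
  have h2 := Does.base (c := Cmd.mv 3 1) (L := L) (s := ({
           p := prog P
           q := (s 0).reverse
           m := encs ((List.range K).map (fun j => s (j + 1))) } : UR).st) (by decide)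
      (Cmd.LB_mv (by decide) (by simp; omega))
  have e2 : (Cmd.mv 3 1).eval ({
           p := prog P
           q := (s 0).reverse
           m := encs ((List.range K).map (fun j => s (j + 1))) } : UR).st
      = ({  o := s 0
            p := prog P
            m := encs ((List.range K).map (fun j => s (j + 1))) } : UR).st := by
    rw [Cmd.eval_mv (by decide)]; simp
  rw [e2] at h2
  have h3 := Does.base (c := .seq (Cmd.clear 2) (Cmd.clear 5)) (L := L) (s := ({
            o := s 0
            p := prog P
            m := encs ((List.range K).map (fun j => s (j + 1))) } : UR).st) (by decide)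
      ⟨Cmd.LB_clear (by simpa using hL1), Cmd.LB_clear (by simp; omega)⟩
  have e3 : (Cmd.seq (Cmd.clear 2) (Cmd.clear 5)).eval ({
            o := s 0
            p := prog P
            m := encs ((List.range K).map (fun j => s (j + 1))) } : UR).st
      = ({ o := s 0 } : UR).st := by
    simp
  rw [e3] at h3
  exact Does.mono (h1.seq (h2.seq h3)) (by omega)

/-! ### the universal machine -/

def univW : WCmd := .seq initW (.seq mainW (.seq (.base (.pop 5)) finW))

theorem univW_bd : univW.bd = 14 := by decide

/-- the universal machine: an interpreter for binary-coded flat programs -/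
def univTM : TM2ComputableAux Bool Bool where
  tm := flatTM (univW.comp 0 univW.size) 14 0 1
  inputAlphabet := Equiv.refl Bool
  outputAlphabet := Equiv.refl Bool

def univT (L T : ℕ) : ℕ :=
  (20 * (L + 1) + 10 + in1B.tb L + in2B.tb L + (Cmd.mv 0 3).tb L)
  + (((T + 1) * (bodyT L + 1) + 1) + (1
  + (20 * (L + 1) + 10 + (Cmd.mv 3 1).tb L + (Cmd.seq (Cmd.clear 2) (Cmd.clear 5)).tb L))) + 1

theorem univT_mono {L L' T T' : ℕ} (hL : L ≤ L') (hT : T ≤ T') : univT L T ≤ univT L' T' := by
  have h1 := in1B.tb_mono hL
  have h2 := in2B.tb_mono hL
  have h3 := (Cmd.mv 0 3).tb_mono hL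
  have h4 := (Cmd.mv 3 1).tb_mono hL
  have h5 := (Cmd.seq (Cmd.clear 2) (Cmd.clear 5)).tb_mono hL
  have h6 : (T + 1) * (bodyT L + 1) ≤ (T' + 1) * (bodyT L' + 1) :=
    Nat.mul_le_mul (by omega) (Nat.succ_le_succ (bodyT_mono hL))
  unfold univT
  omega

theorem fstep_reg_le (P : List Instr) : ∀ i ∈ P, i.reg < (prog P).length + 1 := by
  intro i hi
  have h1 : i.reg ∈ flds P := by
    simp only [flds, List.mem_append, List.mem_flatMap]
    exact Or.inl ⟨i, hi, by simp [fld]⟩
  have h2 := ubs_length_pos _ _ h1
  have : (prog P).length = (ubs (flds P)).length := rfl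
  omega

theorem prog_length_pos (P : List Instr) : ∃ K, (prog P).length = K + 1 := by
  have h1 : 0 ∈ flds P := by simp [flds]
  have h2 := ubs_length_pos _ _ h1
  have : (prog P).length = (ubs (flds P)).length := rfl
  exact ⟨(prog P).length - 1, by omega⟩

theorem mem_len_iter {P : List Instr} {K : ℕ} (hreg : ∀ i ∈ P, i.reg < K) (T : ℕ) (c : ℕ × St) :
    (mem K ((fstep P)^[T] c).2).length ≤ (mem K c.2).length + 2 * T := by
  induction T with
  | zero => simp
  | succ T ih =>
    rw [iterate_succ_apply']
    have := mem_len_step hreg ((fstep P)^[T] c)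
    omega

theorem mem_tail {K : ℕ} {s : St} (h : s 0 = []) :
    mem (K + 1) s = false :: mem K (fun j => s (j + 1)) := by
  rw [mem, List.range_succ_eq_map]
  simp only [List.map_cons, List.map_map, encs_cons, h, enc_nil]
  rfl

theorem univTM_outputs (P : List Instr) (y : List Bool) (T : ℕ)
    (hT : P.length ≤ ((fstep P)^[T] (0, initSt 0 y)).1)
    (h00 : ((fstep P)^[T] (0, initSt 0 y)).2 0 = []) :
    Outputs univTM (enc (prog P) ++ y) (((fstep P)^[T] (0, initSt 0 y)).2 1)
      (univT (2 * (prog P).length + 2 * y.length + 2 * T + 2) T) := by
  set L := 2 * (prog P).length + 2 * y.length + 2 * T + 2 with hL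
  obtain ⟨K, hK⟩ := prog_length_pos P
  have hreg := fstep_reg_le P
  have h0 : (mem ((prog P).length + 1) (initSt 0 y)).length
      = 2 * y.length + 1 + (prog P).length := by
    rw [mem_init]; simp [enc_length]
  have h1 := init_does P y (L := L) (by omega) (by omega)
  have h2 := main_does hreg T (0, initSt 0 y) hT L (by omega) (by simp only [h0]; omega)
  have h3' := mem_len_iter hreg T (0, initSt 0 y)
  simp only [h0] at h3'
  generalize (fstep P)^[T] (0, initSt 0 y) = c at *
  obtain ⟨pc, s⟩ := c
  simp only at h00 h3' hT ⊢
  have hmt : mem ((prog P).length + 1) s = false :: mem ((prog P).length) (fun j => s (j + 1)) :=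
    mem_tail h00
  rw [hmt, List.length_cons] at h3'
  have hp := Does.base (c := .pop 5) (L := L) (s := ({ ecfg P ((prog P).length + 1) (pc, s) with
    c := []
    g := [] } : UR).st) rfl trivial
  have ep : (Cmd.pop 5).eval ({ ecfg P ((prog P).length + 1) (pc, s) with
      c := []
      g := [] } : UR).st = ({ ecfg P ((prog P).length) (pc, fun j => s (j + 1)) with
      c := []
      g := [] } : UR).st := by
    simp only [Cmd.eval_pop, UR.st5, UR.up5, ecfg, hmt, List.tail_cons]
  rw [ep] at hp
  have h3 := fin_does P K (pc, fun j => s (j + 1)) (L := L) (by omega)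
    (by rw [← hK]; simp only; omega)
  rw [← hK] at h3
  have h := h1.seq (h2.seq (hp.seq h3))
  have ho := Does.outputs (w := univW) (k := 14) (by rw [univW_bd]) 0 1 h
    (y := s 1) (by
      intro r hr
      interval_cases r <;> simp)
  unfold Outputs
  have e : ∀ l : List Bool, l.map univTM.inputAlphabet.invFun = l := fun l => List.map_id l
  have e' : ∀ l : List Bool, l.map univTM.outputAlphabet.invFun = l := fun l => List.map_id l
  rw [e, e']
  exact ho

end Pool.Agent.Helper48
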