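import Pool.Agent.Helper72.Blocks
import Pool.Agent.Helper72.Flat

/-!
While programs over binary registers, compiled to flat code and exported to Mathlib machines.
-/

namespace Pool.Agent.Helper48

open Pool.Agent.Helper72 Function Turing StateTransition

/-- while programs: loop programs, composition and `while` loops; `wh r a b` runs `a` (first
symbol of `r` is false) or `b` (first symbol true) as long as register `r` is not empty -/
inductive WCmd
  | base (c : Cmd)
  | seq (a b : WCmd)
  | wh (r : ℕ) (a b : WCmd)

/-- `Run w s t s'`: the program `w` started at `s` stops at `s'` after exactly `t` steps -/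
inductive Run : WCmd → St → ℕ → St → Prop
  | base {c : Cmd} {s : St} (h : c.ok = true) : Run (.base c) s (c.time s) (c.eval s)
  | seq {a b : WCmd} {s s' s'' : St} {t t' : ℕ} (h1 : Run a s t s') (h2 : Run b s' t' s'') :
      Run (.seq a b) s (t + t') s''
  | wh0 {r : ℕ} {a b : WCmd} {s : St} (h : s r = []) : Run (.wh r a b) s 1 s
  | wh1 {r : ℕ} {a b : WCmd} {s s' s'' : St} {l : List Bool} {t t' : ℕ}
      (h : s r = false :: l) (h1 : Run a s t s') (h2 : Run (.wh r a b) s' t' s'') :
      Run (.wh r a b) s (1 + t + t') s''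
  | wh2 {r : ℕ} {a b : WCmd} {s s' s'' : St} {l : List Bool} {t t' : ℕ}
      (h : s r = true :: l) (h1 : Run b s t s') (h2 : Run (.wh r a b) s' t' s'') :
      Run (.wh r a b) s (1 + t + t') s''

namespace WCmd

def size : WCmd → ℕ
  | base c => c.size
  | seq a b => a.size + b.size
  | wh _ a b => 1 + a.size + b.size

def comp : WCmd → ℕ → ℕ → List Instr
  | base c, a, e => c.comp a e
  | seq c d, a, e => c.comp a (a + c.size) ++ d.comp (a + c.size) e
  | wh r c d, a, e =>
    .test r e (a + 1) (a + 1 + c.size) ::
      (c.comp (a + 1) a ++ d.comp (a + 1 + c.size) a)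

@[simp] theorem comp_length (c : WCmd) (a e : ℕ) : (c.comp a e).length = c.size := by
  induction c generalizing a e with
  | base c => simp [comp, size]
  | seq c d hc hd => simp [comp, size, hc, hd]
  | wh r c d hc hd => simp [comp, size, hc, hd]; omega

/-- register bound -/
def bd : WCmd → ℕ
  | base c => c.bd
  | seq a b => max a.bd b.bd
  | wh r a b => max (r + 1) (max a.bd b.bd)

theorem comp_reg {c : WCmd} (a e : ℕ) : ∀ ins ∈ c.comp a e, ins.reg < c.bd := by
  induction c generalizing a e with
  | base c => exact Cmd.comp_reg a e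
  | seq c d hc hd =>
    intro ins h
    simp only [comp, List.mem_append] at h
    simp only [bd]
    rcases h with h | h
    · have := hc _ _ _ h; omega
    · have := hd _ _ _ h; omega
  | wh r c d hc hd =>
    intro ins h
    simp only [comp, List.mem_append, List.mem_cons] at h
    simp only [bd]
    rcases h with h | h | h
    · subst h; simp only [Instr.reg]; omega
    · have := hc _ _ _ h; omega
    · have := hd _ _ _ h; omega

end WCmd

theorem Run.comp {P : List Instr} {w : WCmd} {a e : ℕ} {s s' : St} {t : ℕ}
    (hr : Run w s t s') (h : CodeAt P a (w.comp a e)) :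
    (fstep P)^[t] (a, s) = (e, s') := by
  induction hr generalizing a e with
  | base hok => exact Cmd.comp_run hok h _
  | @seq c d s s' s'' t t' _ _ ih1 ih2 =>
    simp only [WCmd.comp] at h
    rw [add_comm t t', iterate_add_apply, ih1 h.left]
    have := h.right
    simp only [WCmd.comp_length] at this
    exact ih2 this
  | @wh0 r c d s hs =>
    simp only [WCmd.comp] at h
    rw [iterate_one, fstep_some h.head]
    simp [Instr.exec, hs]
  | @wh1 r c d s s' s'' l t t' hs _ _ ih1 ih2 =>
    have h0 := h
    simp only [WCmd.comp] at h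
    rw [add_comm (1 + t) t', iterate_add_apply, add_comm 1 t, iterate_add_apply, iterate_one,
      fstep_some h.head]
    simp only [Instr.exec, hs]
    rw [ih1 h.tail.left]
    exact ih2 h0
  | @wh2 r c d s s' s'' l t t' hs _ _ ih1 ih2 =>
    have h0 := h
    simp only [WCmd.comp] at h
    rw [add_comm (1 + t) t', iterate_add_apply, add_comm 1 t, iterate_add_apply, iterate_one,
      fstep_some h.head]
    simp only [Instr.exec, hs]
    have h2 := h.tail.right
    simp only [WCmd.comp_length] at h2
    rw [ih1 h2]
    exact ih2 h0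

/-- Flat code that turns `x` in register `i` into `y` in register `o`, all others empty,
gives a Turing machine doing the same. -/
theorem flat_outputs_gen {P : List Instr} {k : ℕ} (hreg : ∀ ins ∈ P, ins.reg < k) (i o : Fin k)
    (x y : List Bool) (T : ℕ) (pc : ℕ) (hpc : P.length ≤ pc) (s' : St)
    (hrun : (fstep P)^[T] (0, initSt i x) = (pc, s'))
    (hev : ∀ r < k, s' r = if r = o.val then y else []) :
    Nonempty (TM2OutputsInTime (flatTM P k i o) x (some y) (T + 1)) := by
  obtain ⟨n, hn, hlt, heq⟩ := exists_first_exit (P := P) (c := (0, initSt i x))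
    (T := T) (by rw [hrun]; exact hpc)
  have hsteps := flat_steps (i := i) (o := o) hreg (0, initSt i x) n hlt
  rw [heq, hrun] at hsteps
  have hinit : initList (flatTM P k i o) x = flatCfg P k i o (0, initSt i x) := by
    have h1 : initList (flatTM P k i o) x =
      (⟨some (0 : Fin (P.length + 1)), none, (initList (flatTM P k i o) x).stk⟩ :
    Turing.TM2.Cfg (fun _ : Fin k => Bool) (Fin (P.length + 1)) (Option Bool)) := rfl
    rw [h1]
    have h2 : (initList (flatTM P k i o) x).stk = fun r : Fin k => initSt i x r.val :=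
      funext fun r => initList_stk i o x r
    rw [h2]
    simp [flatCfg, clampL]
  have hfin : haltList (flatTM P k i o) y =
      (⟨none, none, fun r => s' r.val⟩ :
    Turing.TM2.Cfg (fun _ : Fin k => Bool) (Fin (P.length + 1)) (Option Bool)) := by
    have h1 : haltList (flatTM P k i o) y =
      (⟨none, none, (haltList (flatTM P k i o) y).stk⟩ :
    Turing.TM2.Cfg (fun _ : Fin k => Bool) (Fin (P.length + 1)) (Option Bool)) := rfl
    rw [h1]
    have h2 : (haltList (flatTM P k i o) y).stk =
        fun r : Fin k => s' r.val := by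
      funext r
      have hr : r.val < k := r.2
      exact (haltList_stk i o y r).trans (hev _ hr).symm
    rw [h2]
  have hmain : (flip bind (flatTM P k i o).step)^[n + 1] (some (initList (flatTM P k i o) x))
      = Option.map (haltList (flatTM P k i o)) (some y) := by
    refine (iterate_succ_apply' _ _ _).trans ?_
    refine Eq.trans ?_ (congrArg some hfin.symm)
    refine Eq.trans (congrArg _ (congrArg _ (congrArg some hinit))) ?_
    refine (congrArg _ hsteps).trans ?_
    exact flat_halt hpc
  exact ⟨⟨⟨n + 1, hmain⟩, Nat.succ_le_succ hn⟩⟩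

/-- `w` started at `s` stops at `s'` within `T` steps -/
def Does (w : WCmd) (s : St) (T : ℕ) (s' : St) : Prop := ∃ t ≤ T, Run w s t s'

theorem Does.mono {w : WCmd} {s s' : St} {T T' : ℕ} (h : Does w s T s') (hT : T ≤ T') :
    Does w s T' s' := by
  obtain ⟨t, ht, h⟩ := h
  exact ⟨t, ht.trans hT, h⟩

theorem Does.seq {a b : WCmd} {s s' s'' : St} {T T' : ℕ} (h : Does a s T s')
    (h' : Does b s' T' s'') : Does (.seq a b) s (T + T') s'' := by
  obtain ⟨t, ht, h⟩ := h
  obtain ⟨t', ht', h'⟩ := h'
  exact ⟨t + t', add_le_add ht ht', .seq h h'⟩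

theorem Does.base {c : Cmd} {s : St} {L : ℕ} (hok : c.ok = true) (hLB : c.LB L s) :
    Does (.base c) s (c.tb L) (c.eval s) :=
  ⟨c.time s, Cmd.time_le_tb hLB, .base hok⟩

theorem Does.wh0 {r : ℕ} {a b : WCmd} {s : St} (h : s r = []) : Does (.wh r a b) s 1 s :=
  ⟨1, le_rfl, .wh0 h⟩

theorem Does.wh1 {r : ℕ} {a b : WCmd} {s s' s'' : St} {l : List Bool} {T T' : ℕ}
    (h : s r = false :: l) (h1 : Does a s T s') (h2 : Does (.wh r a b) s' T' s'') :
    Does (.wh r a b) s (1 + T + T') s'' := by
  obtain ⟨t, ht, h1⟩ := h1
  obtain ⟨t', ht', h2⟩ := h2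
  exact ⟨1 + t + t', by omega, .wh1 h h1 h2⟩

theorem Does.wh2 {r : ℕ} {a b : WCmd} {s s' s'' : St} {l : List Bool} {T T' : ℕ}
    (h : s r = true :: l) (h1 : Does b s T s') (h2 : Does (.wh r a b) s' T' s'') :
    Does (.wh r a b) s (1 + T + T') s'' := by
  obtain ⟨t, ht, h1⟩ := h1
  obtain ⟨t', ht', h2⟩ := h2
  exact ⟨1 + t + t', by omega, .wh2 h h1 h2⟩

/-- A while program that turns `x` in register `i` into `y` in register `o`, all others empty,
gives a Turing machine doing the same. -/
theorem Does.outputs {w : WCmd} {k : ℕ} (hbd : w.bd ≤ k) (i o : Fin k) {x y : List Bool} {T : ℕ}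
    {s' : St} (h : Does w (initSt i x) T s')
    (hev : ∀ r < k, s' r = if r = o.val then y else []) :
    Nonempty (TM2OutputsInTime (flatTM (w.comp 0 w.size) k i o) x (some y) (T + 1)) := by
  obtain ⟨t, ht, hr⟩ := h
  have hrun := hr.comp (P := w.comp 0 w.size) (codeAt_self _)
  obtain ⟨q⟩ := flat_outputs_gen (P := w.comp 0 w.size) (k := k)
    (fun ins h => (WCmd.comp_reg _ _ _ h).trans_le hbd) i o x y t w.size
    (by simp) s' hrun hev
  exact ⟨⟨q.toEvalsTo, q.steps_le_m.trans (by omega)⟩⟩

end Pool.Agent.Helper48
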